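import Pool.Agent.H625R2.Red
import Pool.Agent.ER.GapSys
import Pool.Agent.H670R2.ERMem
import Pool.Agent.ER.Build

/-!
# Simultaneous stabilisation by static output feedback: definitions
-/

namespace Pool.Agent.NPC.SOF

open Pool.Agent.NPC Pool.Agent.NPC.ER Pool.Agent.NPC.ER.Tens Pool.Agent.NPC.H670R2

/-- integer matrices, written as lists of rows -/
abbrev LM : Type := List (List ℤ)

/-- the entries of a matrix written as a list of rows -/
def ent (M : LM) (i j : ℕ) : ℤ := (M.getD i []).getD j 0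

/-- `M` is an `r × c` matrix -/
def IsMat (r c : ℕ) (M : LM) : Prop := M.length = r ∧ ∀ row ∈ M, row.length = c

/-- the real matrix -/
def toM (r c : ℕ) (M : LM) : Matrix (Fin r) (Fin c) ℝ := fun i j => (ent M i j : ℝ)

/-- A real square matrix is a Hurwitz matrix if all its complex eigenvalues have negative real
part. -/
def Hurwitz {n : ℕ} (M : Matrix (Fin n) (Fin n) ℝ) : Prop :=
  ∀ (z : ℂ) (x : Fin n → ℂ), x ≠ 0 → (M.map Complex.ofReal).mulVec x = z • x → z.re < 0

/-- An instance: the numbers `m` of inputs and `p` of outputs, and a list of plants `(A, B, C)`. -/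
abbrev Inst : Type := (ℕ × ℕ) × List (LM × LM × LM)

/-- All plants have `m` inputs and `p` outputs: `A` is `n × n`, `B` is `n × m` and `C` is `p × n`
where `n` is the number of rows of `A`. -/
def WF (I : Inst) : Prop := ∀ P ∈ I.2, IsMat P.1.length P.1.length P.1 ∧
  IsMat P.1.length I.1.1 P.2.1 ∧ IsMat I.1.2 P.1.length P.2.2

/-- the closed loop matrix `A + B K C` -/
def closed (m p : ℕ) (P : LM × LM × LM) (K : Matrix (Fin m) (Fin p) ℝ) :
    Matrix (Fin P.1.length) (Fin P.1.length) ℝ :=
  toM P.1.length P.1.length P.1 + toM P.1.length m P.2.1 * K * toM p P.1.length P.2.2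

/-- one static output feedback `u = K y` stabilises all the plants `x' = A x + B u`, `y = C x` -/
def Stab (I : Inst) : Prop := WF I ∧
  ∃ K : Matrix (Fin I.1.1) (Fin I.1.2) ℝ, ∀ P ∈ I.2, Hurwitz (closed I.1.1 I.1.2 P K)

/-- the restricted problem: one input, and plants with at most three states -/
def Stab3 (I : Inst) : Prop := Stab I ∧ I.1.1 = 1 ∧ ∀ P ∈ I.2, P.1.length ≤ 3

section Reduction

/-- An affine form `(α, P, Q)`: the value is `α + ∑ k i (i ∈ P) - ∑ k i (i ∈ Q)`. -/
abbrev AF : Type := ℤ × List ℕ × List ℕ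

/-- the value of an affine form -/
def AF.val (f : AF) (k : ℕ → ℝ) : ℝ := f.1 + (f.2.1.map k).sum - (f.2.2.map k).sum

/-- the coefficient of the variable `t`, with the opposite sign -/
def AF.nco (f : AF) (t : ℕ) : ℤ := ((f.2.2.count t : ℕ) : ℤ) - ((f.2.1.count t : ℕ) : ℤ)

/-- the plant with the closed loop matrix `(- f)` -/
def plant1 (p : ℕ) (f : AF) : LM × LM × LM :=
  ([[-f.1]], [[1]], (List.range p).map fun t => [f.nco t])

/-- the plant with closed loop polynomial `s³ + a s² + b s + c` -/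
def plant3 (p : ℕ) (a b c : AF) : LM × LM × LM :=
  ([[0, 1, 0], [0, 0, 1], [-c.1, -b.1, -a.1]], [[0], [0], [1]],
    (List.range p).map fun t => [c.nco t, b.nco t, a.nco t])

/-- the plants of a constraint, `e` is the index of the variable for the error -/
def conP (p e : ℕ) : Con → List (LM × LM × LM)
  | .one i => [plant1 p (-1, [i, i, i, i, i, i, i, i, e], []),
      plant1 p (1, [e], [i, i, i, i, i, i, i, i])]
  | .add i j k => [plant1 p (0, [i, j, e], [k]), plant1 p (0, [k, e], [i, j])]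
  | .mul i j k =>
      [plant3 p (4, [], [i]) (4, [j], []) (16, [j, j, j, j], [i, i, i, i, k, e]),
        plant3 p (4, [i], []) (4, [j], []) (16, [i, i, i, i, j, j, j, j, k], [e])]

/-- the number of squarings -/
def sq (T : List Con) : ℕ := gapK T.length + 1

/-- the plants of a system with the variables `0, ..., N - 1` -/
def sysP (N : ℕ) (T : List Con) : List (LM × LM × LM) :=
  (List.range N).flatMap (fun i => [plant1 (N + sq T + 1) (1, [i], []),
    plant1 (N + sq T + 1) (1, [], [i])]) ++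
  plant1 (N + sq T + 1) (1, [], [N, N]) ::
  (List.range (sq T)).map (fun j => plant3 (N + sq T + 1) (0, [N + j], []) (0, [N + j], [])
    (0, [N + j + 1], [])) ++
  T.flatMap (conP (N + sq T + 1) (N + sq T))

/-- the instance of a system with the variables `0, ..., N - 1` -/
def sysI (N : ℕ) (T : List Con) : Inst := ((1, N + sq T + 1), sysP N T)

/-- the reduction -/
noncomputable def red (S : List Con) : Inst := sysI (allVars (bsys S)).length (renS (bsys S))

end Reduction

section Statements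

/-- Routh-Hurwitz criterion for cubic polynomials -/
def S_RH3 : Prop := ∀ a b c : ℝ, (∀ z : ℂ, z ^ 3 + a * z ^ 2 + b * z + c = 0 → z.re < 0) ↔
  0 < a ∧ 0 < c ∧ c < a * b

/-- all variables are less than `p` -/
def AF.Lt (f : AF) (p : ℕ) : Prop := (∀ i ∈ f.2.1, i < p) ∧ ∀ i ∈ f.2.2, i < p

/-- the closed loop matrix of `plant1` -/
def S_CL1 : Prop := ∀ (p : ℕ) (f : AF), f.Lt p → ∀ K : Matrix (Fin 1) (Fin p) ℝ,
  (Hurwitz (closed 1 p (plant1 p f) K) ↔
    0 < f.val fun t => if h : t < p then K 0 ⟨t, h⟩ else 0)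

/-- the closed loop matrix of `plant3` -/
def S_CL3 : Prop := ∀ (p : ℕ) (a b c : AF), a.Lt p → b.Lt p → c.Lt p →
  ∀ K : Matrix (Fin 1) (Fin p) ℝ,
  (Hurwitz (closed 1 p (plant3 p a b c) K) ↔
    ∀ z : ℂ, z ^ 3 + ((a.val fun t => if h : t < p then K 0 ⟨t, h⟩ else 0 : ℝ) : ℂ) * z ^ 2 +
      ((b.val fun t => if h : t < p then K 0 ⟨t, h⟩ else 0 : ℝ) : ℂ) * z +
      ((c.val fun t => if h : t < p then K 0 ⟨t, h⟩ else 0 : ℝ) : ℂ) = 0 → z.re < 0)

/-- the plants are well formed -/
def S_WF : Prop := ∀ (N : ℕ) (T : List Con), WF (sysI N T) ∧ ∀ P ∈ (sysI N T).2, P.1.length ≤ 3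

/-- correctness of the reduction: satisfiable systems give stabilisable plants -/
def S_COR1 : Prop := ∀ (N : ℕ) (T : List Con), (∀ c ∈ T, ∀ i ∈ c.vars, i < N) →
  (∃ w : ℕ → ℝ, (∀ i, |w i| ≤ 1 / 8) ∧ ∀ c ∈ T, c.HoldsC (1 / 8) w) → Stab (sysI N T)

/-- correctness of the reduction: stabilisable plants give satisfiable systems -/
def S_COR2 : Prop := ∀ (N : ℕ) (T : List Con), (∀ c ∈ T, ∀ i ∈ c.vars, i < N) →
  Stab (sysI N T) → ∃ w : ℕ → ℝ, ∀ c ∈ T, c.HoldsC (1 / 8) w

/-- the reduction is computable in polynomial time -/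
def S_RED : Prop := Poly red

/-- triangularisation of complex matrices -/
def S_TRI : Prop := ∀ (n : ℕ) (M : Matrix (Fin n) (Fin n) ℂ),
  ∃ U V T : Matrix (Fin n) (Fin n) ℂ, U * V = 1 ∧ M * U = U * T ∧ ∀ i j, j < i → T i j = 0

/-- Certificate of the Hurwitz property: `M` is similar to an upper triangular matrix with
diagonal entries of negative real part. -/
def S_CER : Prop := ∀ (n : ℕ) (M : Matrix (Fin n) (Fin n) ℝ), Hurwitz M ↔
  ∃ U V T : Matrix (Fin n) (Fin n) ℂ, U * V = 1 ∧ M.map Complex.ofReal * U = U * T ∧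
    (∀ i j, j < i → T i j = 0) ∧ ∀ i, (T i i).re < 0

end Statements

section Membership

/-- well-formedness test for matrices -/
def isMatB (r c : ℕ) (M : LM) : Bool :=
  decide (M.length = r) && M.all fun row => decide (row.length = c)

/-- well-formedness test -/
def wfB (I : Inst) : Bool := I.2.all fun P => isMatB P.1.length P.1.length P.1 &&
  (isMatB P.1.length I.1.1 P.2.1 && isMatB I.1.2 P.1.length P.2.2)

/-- The index of a variable: kind `0` for `K`, kinds `1, ..., 6` for the real and imaginary parts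
of `U`, `V`, `T`; `q` is the position of the plant, `d` a bound for all dimensions. -/
def vix (d kd q i j : ℕ) : ℕ := (((q * d + i) * d + j) * 7) + kd

/-- a bound for the dimensions -/
def dimB (I : Inst) : ℕ := (I.2.flatMap fun P => P.1.map (fun _ => ()) ++ (P.2.2.map (fun _ => ()) ++
  (P.2.1.getD 0 []).map fun _ => ())).length

/-- the entry `(i, j)` of the closed loop matrix as a term; `m` inputs, `p` outputs -/
def cloTm (d m p : ℕ) (P : LM × LM × LM) (i j : ℕ) : Tm :=
  Tm.add (intTm (ent P.1 i j)) (sumTm ((List.range m).flatMap fun s =>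
    (List.range p).map fun t => Tm.mul (intTm (ent P.2.1 i s * ent P.2.2 t j))
      (Tm.var (vix d 0 0 s t))))

/-- complex sum of products: real part -/
def mulRe (n : ℕ) (X X' Y Y' : ℕ → Tm) : Tm :=
  sumTm ((List.range n).map fun k => Tm.add (Tm.mul (X k) (Y k)) (Tm.neg (Tm.mul (X' k) (Y' k))))

/-- complex sum of products: imaginary part -/
def mulIm (n : ℕ) (X X' Y Y' : ℕ → Tm) : Tm :=
  sumTm ((List.range n).map fun k => Tm.add (Tm.mul (X k) (Y' k)) (Tm.mul (X' k) (Y k)))

/-- the conditions of the certificate for the entry `(i, j)` -/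
def entFm (d m p q : ℕ) (P : LM × LM × LM) (i j : ℕ) : List Fm :=
  let n := P.1.length
  let v : ℕ → ℕ → ℕ → Tm := fun kd i j => Tm.var (vix d kd q i j)
  [Fm.eq (mulRe n (fun k => v 1 i k) (fun k => v 2 i k) (fun k => v 3 k j) (fun k => v 4 k j))
      (if i = j then Tm.one else Tm.zero),
    Fm.eq (mulIm n (fun k => v 1 i k) (fun k => v 2 i k) (fun k => v 3 k j) (fun k => v 4 k j))
      Tm.zero,
    Fm.eq (sumTm ((List.range n).map fun k => Tm.mul (cloTm d m p P i k) (v 1 k j)))
      (mulRe n (fun k => v 1 i k) (fun k => v 2 i k) (fun k => v 5 k j) (fun k => v 6 k j)),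
    Fm.eq (sumTm ((List.range n).map fun k => Tm.mul (cloTm d m p P i k) (v 2 k j)))
      (mulIm n (fun k => v 1 i k) (fun k => v 2 i k) (fun k => v 5 k j) (fun k => v 6 k j)),
    if j < i then Fm.eq (v 5 i j) Tm.zero else tt,
    if j < i then Fm.eq (v 6 i j) Tm.zero else tt,
    if i = j then Fm.lt (v 5 i j) Tm.zero else tt]

/-- the conditions for all plants -/
def plantsFm (I : Inst) : Fm := conj (I.2.zipIdx.flatMap fun P =>
  (List.range P.1.1.length).flatMap fun i => (List.range P.1.1.length).flatMap fun j =>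
    entFm (dimB I) (P.1.2.1.getD 0 []).length P.1.2.2.length P.2 P.1 i j)

/-- well-formedness test -/
def S_WFB : Prop := (∀ I : Inst, wfB I = true ↔ WF I) ∧ Poly wfB

/-- value of the closed loop term -/
def S_CLO : Prop := ∀ (d m p : ℕ) (P : LM × LM × LM) (K : Matrix (Fin m) (Fin p) ℝ) (v : ℕ → ℝ)
  (_ : ∀ (s : Fin m) (t : Fin p), v (vix d 0 0 s t) = K s t) (i j : Fin P.1.length),
  (cloTm d m p P i j).eval v = closed m p P K i j

/-- The conditions of one plant. -/
def S_ENT : Prop := ∀ (d m p q : ℕ) (P : LM × LM × LM) (K : Matrix (Fin m) (Fin p) ℝ)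
  (v : ℕ → ℝ) (_ : ∀ (s : Fin m) (t : Fin p), v (vix d 0 0 s t) = K s t)
  (U V T : Matrix (Fin P.1.length) (Fin P.1.length) ℂ)
  (_ : ∀ i j : Fin P.1.length, v (vix d 1 q i j) = (U i j).re)
  (_ : ∀ i j : Fin P.1.length, v (vix d 2 q i j) = (U i j).im)
  (_ : ∀ i j : Fin P.1.length, v (vix d 3 q i j) = (V i j).re)
  (_ : ∀ i j : Fin P.1.length, v (vix d 4 q i j) = (V i j).im)
  (_ : ∀ i j : Fin P.1.length, v (vix d 5 q i j) = (T i j).re)
  (_ : ∀ i j : Fin P.1.length, v (vix d 6 q i j) = (T i j).im),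
  (∀ i j : Fin P.1.length, ∀ φ ∈ entFm d m p q P i j, φ.Holds v) ↔
    (U * V = 1 ∧ (closed m p P K).map Complex.ofReal * U = U * T ∧
      (∀ i j, j < i → T i j = 0) ∧ ∀ i, (T i i).re < 0)

/-- correctness of the formula -/
def S_MEM : Prop := ∀ I : Inst, WF I →
  ((∃ K : Matrix (Fin I.1.1) (Fin I.1.2) ℝ, ∀ P ∈ I.2, Hurwitz (closed I.1.1 I.1.2 P K)) ↔
    ETR (plantsFm I))

/-- the formula is computable in polynomial time -/
def S_POL : Prop := Poly plantsFm

end Membership

end Pool.Agent.NPC.SOF
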