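import Pool.Agent.H625R2.SOF.Defs
import Pool.Agent.ER.Hard
import Pool.Agent.H549R2.CV.M

/-!
# Simultaneous stabilisation by static output feedback: assembly
-/

namespace Pool.Agent.NPC.SOF

open Pool.Agent.NPC Pool.Agent.NPC.ER Pool.Agent.NPC.ER.Tens Pool.Agent.NPC.H670R2

theorem ren_holdsC (f : ℕ → ℕ) (c : Con) (κ : ℝ) (v : ℕ → ℝ) :
    (ren f c).HoldsC κ v ↔ c.HoldsC κ (fun i => v (f i)) := by
  cases c <;> rfl

theorem renS_holdsC {S : List Con} {κ : ℝ} {w : ℕ → ℝ} (h : ∀ c ∈ S, c.HoldsC κ w) :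
    ∀ c ∈ renS S, c.HoldsC κ (fun k => w ((allVars S).getD k 0)) := by
  intro c' hc'
  unfold renS at hc'
  obtain ⟨c, hc, rfl⟩ := List.mem_map.mp hc'
  rw [ren_holdsC]
  have key : ∀ i ∈ c.vars, (allVars S).getD (index (allVars S) i) 0 = i := by
    intro i hi
    have hj' : i ∈ allVars S := List.mem_flatMap.2 ⟨c, hc, hi⟩
    have := getElem?_index hj'
    simp only [List.getD_eq_getElem?_getD, this, Option.getD_some]
  have h1 := h c hc
  cases c with
  | one i =>
    have k1 := key i (by simp [Con.vars])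
    simp only [Con.HoldsC] at h1 ⊢
    rw [k1]; exact h1
  | add i j k =>
    have k1 := key i (by simp [Con.vars])
    have k2 := key j (by simp [Con.vars])
    have k3 := key k (by simp [Con.vars])
    simp only [Con.HoldsC] at h1 ⊢
    rw [k1, k2, k3]; exact h1
  | mul i j k =>
    have k1 := key i (by simp [Con.vars])
    have k2 := key j (by simp [Con.vars])
    have k3 := key k (by simp [Con.vars])
    simp only [Con.HoldsC] at h1 ⊢
    rw [k1, k2, k3]; exact h1

theorem of_renS_holdsC {S : List Con} {κ : ℝ} {w : ℕ → ℝ} (h : ∀ c ∈ renS S, c.HoldsC κ w) :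
    ∀ c ∈ S, c.HoldsC κ (fun i => w (index (allVars S) i)) := by
  intro c hc
  rw [← ren_holdsC]
  exact h _ (List.mem_map_of_mem hc)

section

theorem red_iff (h1 : S_COR1) (h2 : S_COR2) (S : List Con) : Sat S ↔ Stab (red S) := by
  constructor
  · intro hS
    obtain ⟨w, hw, hc⟩ := bsys_of_sat hS
    refine h1 _ _ renS_vars ⟨fun k => w ((allVars (bsys S)).getD k 0), fun i => hw _, ?_⟩
    exact renS_holdsC hc
  · intro hS
    obtain ⟨w, hw⟩ := h2 _ _ renS_vars hS
    exact sat_of_bsys (of_renS_holdsC hw)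

theorem red_iff3 (h1 : S_COR1) (h2 : S_COR2) (h3 : S_WF) (S : List Con) :
    Sat S ↔ Stab3 (red S) := by
  rw [red_iff h1 h2]
  constructor
  · intro h
    exact ⟨h, rfl, (h3 _ _).2⟩
  · intro h
    exact h.1

/-- the formula for the membership -/
def stabFm (I : Inst) : Fm := if wfB I = true then plantsFm I else ff

/-- the restriction of the instances -/
def resB (I : Inst) : Bool := decide (I.1.1 = 1) && I.2.all fun P => decide (P.1.length ≤ 3)

/-- the formula for the membership, restricted -/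
def stab3Fm (I : Inst) : Fm := if resB I = true then stabFm I else ff

theorem stab_mem (h1 : S_WFB) (h2 : S_MEM) (I : Inst) : Stab I ↔ ETR (stabFm I) := by
  unfold stabFm
  split_ifs with h
  · have hw := (h1.1 I).1 h
    rw [← h2 I hw]
    exact ⟨fun hs => hs.2, fun hs => ⟨hw, hs⟩⟩
  · constructor
    · intro hs
      exact absurd ((h1.1 I).2 hs.1) h
    · intro hs
      exact absurd hs not_etr_ff

theorem resB_iff (I : Inst) : resB I = true ↔ (I.1.1 = 1 ∧ ∀ P ∈ I.2, P.1.length ≤ 3) := by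
  unfold resB
  simp [List.all_eq_true]

theorem stab3_mem (h1 : S_WFB) (h2 : S_MEM) (I : Inst) : Stab3 I ↔ ETR (stab3Fm I) := by
  unfold stab3Fm
  split_ifs with h
  · rw [← stab_mem h1 h2]
    exact ⟨fun hs => hs.1, fun hs => ⟨hs, (resB_iff I).1 h⟩⟩
  · constructor
    · intro hs
      exact absurd ((resB_iff I).2 hs.2) h
    · intro hs
      exact absurd hs not_etr_ff

theorem stabFm_poly (h1 : S_WFB) (h2 : S_POL) : Poly stabFm :=
  Poly.ite (Poly.decide_bool h1.2) h2 (Poly.const _)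

theorem resB_poly : Poly resB := by
  refine Poly.and (Poly.decide_eq (Poly.fst (Poly.fst Poly.id)) (Poly.const 1)) ?_
  exact Poly.all (p := fun (_ : Inst) (P : LM × LM × LM) => decide (P.1.length ≤ 3))
    (Poly.snd Poly.id) (Poly.decide_le (Poly.length (Poly.fst (Poly.snd Poly.id))) (Poly.const 3))

theorem stab3Fm_poly (h1 : S_WFB) (h2 : S_POL) : Poly stab3Fm :=
  Poly.ite (Poly.decide_bool resB_poly) (stabFm_poly h1 h2) (Poly.const _)

/-- **Assembly.** -/
theorem sof_assembly (h1 : S_COR1) (h2 : S_COR2) (h3 : S_WF) (h4 : S_RED) (h5 : S_WFB)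
    (h6 : S_MEM) (h7 : S_POL) :
    ERComplete (lang Stab) ∧ ERComplete (lang Stab3) ∧
      ((∀ L : Set (List Bool), InER L → InNP L) ↔ InNP (lang Stab3)) := by
  have a : ERComplete (lang Stab) :=
    ⟨H670R2.InER.of_poly (stabFm_poly h5 h7) (stab_mem h5 h6), ERHard.of_sys h4 (red_iff h1 h2)⟩
  have b : ERComplete (lang Stab3) :=
    ⟨H670R2.InER.of_poly (stab3Fm_poly h5 h7) (stab3_mem h5 h6), ERHard.of_sys h4 (red_iff3 h1 h2 h3)⟩
  exact ⟨a, b, H549CV.np_iff b⟩

end

end Pool.Agent.NPC.SOF
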