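import Pool.Agent.H625R2.SOF.Defs

/-!
# Certificate of the Hurwitz property (task CER, helper840)
-/

set_option autoImplicit false

namespace Pool.Agent.NPC.SOF

theorem cer_diag {n : ℕ} (T : Matrix (Fin n) (Fin n) ℂ) (hT : ∀ i j, j < i → T i j = 0)
    (i : Fin n) : ∃ y : Fin n → ℂ, y ≠ 0 ∧ T.mulVec y = T i i • y := by
  have hdet : (T - Matrix.scalar (Fin n) (T i i)).det = 0 := by
    have hup : (T - Matrix.scalar (Fin n) (T i i)).BlockTriangular id := by
      intro a b hab
      have h1 : b < a := hab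
      rw [Matrix.sub_apply, hT a b h1, Matrix.scalar_apply, Matrix.diagonal_apply_ne _ h1.ne']
      simp
    rw [Matrix.det_of_isUpperTriangular hup]
    refine Finset.prod_eq_zero (Finset.mem_univ i) ?_
    simp [Matrix.scalar_apply]
  obtain ⟨y, hy, h⟩ := Matrix.exists_mulVec_eq_zero_iff.mpr hdet
  refine ⟨y, hy, ?_⟩
  rw [Matrix.sub_mulVec, sub_eq_zero] at h
  rw [h]
  funext j
  simp [Matrix.scalar_apply, Matrix.mulVec_diagonal]

theorem cer_eig {n : ℕ} (T : Matrix (Fin n) (Fin n) ℂ) (hT : ∀ i j, j < i → T i j = 0)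
    (z : ℂ) (y : Fin n → ℂ) (hy : y ≠ 0) (h : T.mulVec y = z • y) : ∃ i, z = T i i := by
  by_contra hcon
  push Not at hcon
  have hdet : (T - Matrix.scalar (Fin n) z).det ≠ 0 := by
    have hup : (T - Matrix.scalar (Fin n) z).BlockTriangular id := by
      intro a b hab
      have h1 : b < a := hab
      rw [Matrix.sub_apply, hT a b h1, Matrix.scalar_apply, Matrix.diagonal_apply_ne _ h1.ne']
      simp
    rw [Matrix.det_of_isUpperTriangular hup]
    refine Finset.prod_ne_zero_iff.mpr fun i _ => ?_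
    simp only [Matrix.sub_apply, Matrix.scalar_apply, Matrix.diagonal_apply_eq]
    exact sub_ne_zero.mpr (hcon i).symm
  apply hdet
  refine Matrix.exists_mulVec_eq_zero_iff.mp ⟨y, hy, ?_⟩
  rw [Matrix.sub_mulVec, h, sub_eq_zero]
  funext j
  simp [Matrix.scalar_apply, Matrix.mulVec_diagonal]

theorem tCER (h1 : S_TRI) : S_CER := by
  intro n M
  constructor
  · intro hM
    obtain ⟨U, V, T, hUV, hMU, hT⟩ := h1 n (M.map Complex.ofReal)
    refine ⟨U, V, T, hUV, hMU, hT, fun i => ?_⟩
    obtain ⟨y, hy, hTy⟩ := cer_diag T hT i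
    have hVU : V * U = 1 := _root_.mul_eq_one_comm.mp hUV
    refine hM (T i i) (U.mulVec y) ?_ ?_
    · intro h0
      apply hy
      have : (V * U).mulVec y = 0 := by rw [← Matrix.mulVec_mulVec, h0, Matrix.mulVec_zero]
      rwa [hVU, Matrix.one_mulVec] at this
    · rw [Matrix.mulVec_mulVec, hMU, ← Matrix.mulVec_mulVec, hTy, Matrix.mulVec_smul]
  · rintro ⟨U, V, T, hUV, hMU, hT, hneg⟩ z x hx hz
    have hVU : V * U = 1 := _root_.mul_eq_one_comm.mp hUV
    have hVx : V.mulVec x ≠ 0 := by
      intro h0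
      apply hx
      have : (U * V).mulVec x = 0 := by rw [← Matrix.mulVec_mulVec, h0, Matrix.mulVec_zero]
      rwa [hUV, Matrix.one_mulVec] at this
    have hT2 : T * V = V * M.map Complex.ofReal := by
      calc T * V = (V * U) * T * V := by rw [hVU, one_mul]
        _ = V * (U * T) * V := by simp only [mul_assoc]
        _ = V * (M.map Complex.ofReal * U) * V := by rw [hMU]
        _ = V * M.map Complex.ofReal * (U * V) := by simp only [mul_assoc]
        _ = V * M.map Complex.ofReal := by rw [hUV, mul_one]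
    obtain ⟨i, hi⟩ := cer_eig T hT z (V.mulVec x) hVx (by
      rw [Matrix.mulVec_mulVec, hT2, ← Matrix.mulVec_mulVec, hz, Matrix.mulVec_smul])
    rw [hi]
    exact hneg i


end Pool.Agent.NPC.SOF
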