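import Pool.Agent.H625R2.SOF.Defs

/-!
# The closed loop of the plants with one state
-/

namespace Pool.Agent.NPC.SOF

/-- the Hurwitz property of `1 × 1` matrices -/
theorem cl1_hur (M : Matrix (Fin 1) (Fin 1) ℝ) : Hurwitz M ↔ M 0 0 < 0 := by
  constructor
  · intro h
    have h1 := h ((M 0 0 : ℝ) : ℂ) (fun _ => 1) (by
      intro h0
      have := congrFun h0 0
      simp at this) (by
      funext i
      have hi : i = 0 := Subsingleton.elim _ _
      subst hi
      simp [Matrix.mulVec, dotProduct])
    simpa using h1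
  · intro h z x hx he
    have hx0 : x 0 ≠ 0 := by
      intro h0
      apply hx
      funext i
      have hi : i = 0 := Subsingleton.elim _ _
      rw [hi, h0]
      rfl
    have h1 := congrFun he 0
    simp only [Matrix.mulVec, dotProduct, Fin.sum_univ_one, Matrix.map_apply, Pi.smul_apply,
      smul_eq_mul] at h1
    have h2 : ((M 0 0 : ℝ) : ℂ) = z := mul_right_cancel₀ hx0 h1
    rw [← h2, Complex.ofReal_re]
    exact h

/-- the sum over a list of variables -/
theorem cl1_sum (p : ℕ) (K : Matrix (Fin 1) (Fin p) ℝ) (P : List ℕ) (hP : ∀ i ∈ P, i < p) :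
    ∑ t : Fin p, K 0 t * ((P.count (t : ℕ) : ℕ) : ℝ) =
      (P.map fun t => if h : t < p then K 0 ⟨t, h⟩ else 0).sum := by
  induction P with
  | nil => simp
  | cons a P ih =>
    have ha : a < p := hP a List.mem_cons_self
    have ih' := ih fun i hi => hP i (List.mem_cons_of_mem _ hi)
    rw [List.map_cons, List.sum_cons, ← ih', dif_pos ha]
    have h1 : ∀ t : Fin p, K 0 t * (((a :: P).count (t : ℕ) : ℕ) : ℝ) =
        (if t = ⟨a, ha⟩ then K 0 t else 0) + K 0 t * ((P.count (t : ℕ) : ℕ) : ℝ) := by
      intro t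
      rw [List.count_cons]
      by_cases ht : t = ⟨a, ha⟩
      · have h2 : (a == (t : ℕ)) = true := by rw [ht]; simp
        rw [if_pos ht, if_pos h2]
        push_cast
        ring
      · have h2 : ¬ (a == (t : ℕ)) = true := by
          intro h3
          apply ht
          have h4 : a = (t : ℕ) := by simpa using h3
          exact Fin.ext h4.symm
        rw [if_neg ht, if_neg h2]
        push_cast
        ring
    rw [Finset.sum_congr rfl fun t _ => h1 t, Finset.sum_add_distrib, Finset.sum_ite_eq',
      if_pos (Finset.mem_univ _)]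

theorem tCL1 : S_CL1 := by
  intro p f hf K
  have e : closed 1 p (plant1 p f) K (0 : Fin 1) (0 : Fin 1) =
      - f.val fun t => if h : t < p then K 0 ⟨t, h⟩ else 0 := by
    have h1 : closed 1 p (plant1 p f) K (0 : Fin 1) (0 : Fin 1) =
        (-(f.1 : ℝ)) + ∑ t : Fin p, K 0 t * ((f.nco t : ℤ) : ℝ) := by
      show toM 1 1 [[-f.1]] (0 : Fin 1) (0 : Fin 1) + (toM 1 1 [[1]] * K *
        toM p 1 ((List.range p).map fun t => [f.nco t])) (0 : Fin 1) (0 : Fin 1) = _
      rw [Matrix.mul_apply]
      congr 1
      · simp [toM, ent]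
      · refine Finset.sum_congr rfl fun t _ => ?_
        rw [Matrix.mul_apply, Fin.sum_univ_one]
        have h2 : toM 1 1 [[1]] (0 : Fin 1) (0 : Fin 1) = 1 := by simp [toM, ent]
        have h3 : toM p 1 ((List.range p).map fun t => [f.nco t]) t (0 : Fin 1) =
            ((f.nco t : ℤ) : ℝ) := by
          unfold toM ent
          have h4 : (t : ℕ) < ((List.range p).map fun t => [f.nco t]).length := by
            rw [List.length_map, List.length_range]
            exact t.2
          rw [List.getD_eq_getElem _ _ h4]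
          simp
        rw [h2, h3, one_mul]
    rw [h1]
    have h5 : ∀ t : Fin p, K 0 t * ((f.nco t : ℤ) : ℝ) =
        K 0 t * ((f.2.2.count (t : ℕ) : ℕ) : ℝ) - K 0 t * ((f.2.1.count (t : ℕ) : ℕ) : ℝ) := by
      intro t
      unfold AF.nco
      push_cast
      ring
    rw [Finset.sum_congr rfl fun t _ => h5 t, Finset.sum_sub_distrib, cl1_sum p K _ hf.2,
      cl1_sum p K _ hf.1]
    unfold AF.val
    ring
  have h2 := cl1_hur (closed 1 p (plant1 p f) K)
  refine h2.trans ?_
  rw [e]
  exact neg_lt_zero

end Pool.Agent.NPC.SOF
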