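import Pool.Agent.H625R2.SOF.Defs

/-! The closed loop matrix of `plant3`. -/

namespace Pool.Agent.NPC.SOF

open Pool.Agent.NPC Pool.Agent.NPC.ER Pool.Agent.NPC.ER.Tens Pool.Agent.NPC.H670R2

theorem cl3_count (p : ℕ) (K : Fin p → ℝ) (L : List ℕ) (hL : ∀ i ∈ L, i < p) :
    ∑ t : Fin p, K t * ((L.count (t : ℕ) : ℕ) : ℝ) =
      (L.map fun t => if h : t < p then K ⟨t, h⟩ else 0).sum := by
  induction L with
  | nil => simp
  | cons x L ih =>
    have hx : x < p := hL x (by simp)
    have ih' := ih (fun i hi => hL i (by simp [hi]))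
    rw [List.map_cons, List.sum_cons, dif_pos hx, ← ih']
    have h1 : ∀ t : Fin p, K t * (((x :: L).count (t : ℕ) : ℕ) : ℝ) =
        K t * ((L.count (t : ℕ) : ℕ) : ℝ) + (if t = ⟨x, hx⟩ then K t else 0) := by
      intro t
      rw [List.count_cons]
      by_cases h : t = ⟨x, hx⟩
      · subst h
        simp
        ring
      · have h2 : ¬ (x = (t : ℕ)) := fun h3 => h (Fin.ext h3.symm)
        simp [h, h2]
    rw [Finset.sum_congr rfl (fun t _ => h1 t), Finset.sum_add_distrib,
      Finset.sum_ite_eq' Finset.univ]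
    simp
    ring

theorem cl3_nco (p : ℕ) (K : Fin p → ℝ) (f : AF) (hf : f.Lt p) :
    ((-f.1 : ℤ) : ℝ) + ∑ t : Fin p, K t * ((f.nco (t : ℕ) : ℤ) : ℝ) =
      - f.val (fun t => if h : t < p then K ⟨t, h⟩ else 0) := by
  have h1 := cl3_count p K f.2.1 hf.1
  have h2 := cl3_count p K f.2.2 hf.2
  have h3 : ∀ t : Fin p, K t * ((f.nco (t : ℕ) : ℤ) : ℝ) =
      K t * ((f.2.2.count (t : ℕ) : ℕ) : ℝ) - K t * ((f.2.1.count (t : ℕ) : ℕ) : ℝ) := by
    intro t
    unfold AF.nco
    push_cast
    ring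
  rw [Finset.sum_congr rfl (fun t _ => h3 t), Finset.sum_sub_distrib, h1, h2]
  unfold AF.val
  push_cast
  ring

theorem cl3_hur (α β γ : ℝ) :
    Hurwitz (!![0, 1, 0; 0, 0, 1; -γ, -β, -α] : Matrix (Fin 3) (Fin 3) ℝ) ↔
      ∀ z : ℂ, z ^ 3 + (α : ℂ) * z ^ 2 + (β : ℂ) * z + (γ : ℂ) = 0 → z.re < 0 := by
  constructor
  · intro h z hz
    refine h z ![1, z, z ^ 2] (fun h0 => ?_) ?_
    · have := congrFun h0 0
      simp at this
    · ext i
      fin_cases i
      · simp [Matrix.mulVec, dotProduct, Fin.sum_univ_three]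
      · simp [Matrix.mulVec, dotProduct, Fin.sum_univ_three]
        ring
      · simp [Matrix.mulVec, dotProduct, Fin.sum_univ_three]
        linear_combination (-1 : ℂ) * hz
  · intro h z x hx he
    have e0 := congrFun he 0
    have e1 := congrFun he 1
    have e2 := congrFun he 2
    simp [Matrix.mulVec, dotProduct, Fin.sum_univ_three] at e0 e1 e2
    have hx0 : x 0 ≠ 0 := by
      intro h0
      apply hx
      have h1 : x 1 = 0 := by rw [e0, h0, mul_zero]
      have h2 : x 2 = 0 := by rw [e1, h1, mul_zero]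
      ext i
      fin_cases i
      · exact h0
      · exact h1
      · exact h2
    apply h z
    have h4 : x 0 * (z ^ 3 + (α : ℂ) * z ^ 2 + (β : ℂ) * z + (γ : ℂ)) = 0 := by
      rw [e1, e0] at e2
      linear_combination (-1 : ℂ) * e2
    rcases mul_eq_zero.1 h4 with h5 | h5
    · exact absurd h5 hx0
    · exact h5

theorem tCL3 : S_CL3 := by
  intro p a b c ha hb hc K
  rw [← cl3_hur]
  have hM : @Eq (Matrix (Fin 3) (Fin 3) ℝ) (closed 1 p (plant3 p a b c) K)
      !![0, 1, 0; 0, 0, 1; -(c.val fun t => if h : t < p then K 0 ⟨t, h⟩ else 0),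
        -(b.val fun t => if h : t < p then K 0 ⟨t, h⟩ else 0),
        -(a.val fun t => if h : t < p then K 0 ⟨t, h⟩ else 0)] := by
    have ent1 : ∀ i j : Fin 3, @closed 1 p (plant3 p a b c) K i j =
        (ent (plant3 p a b c).1 i j : ℝ) +
          ∑ t : Fin p, (ent (plant3 p a b c).2.1 i 0 : ℝ) * K 0 t *
            (ent (plant3 p a b c).2.2 t j : ℝ) := by
      intro i j
      change ((ent (plant3 p a b c).1 i j : ℝ)) + _ = _
      congr 1
      change (toM 3 1 (plant3 p a b c).2.1 * K * toM p 3 (plant3 p a b c).2.2) i j = _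
      rw [Matrix.mul_apply]
      refine Finset.sum_congr rfl (fun t _ => ?_)
      rw [Matrix.mul_apply]
      simp [toM]
    have entC : ∀ (t : Fin p) (j : ℕ), ent (plant3 p a b c).2.2 t j =
        ([c.nco t, b.nco t, a.nco t] : List ℤ).getD j 0 := by
      intro t j
      unfold ent plant3
      simp
    ext i j
    rw [ent1 i j]
    simp only [entC]
    have hA := cl3_nco p (K 0) a ha
    have hB := cl3_nco p (K 0) b hb
    have hC := cl3_nco p (K 0) c hc
    fin_cases i <;> fin_cases j <;> simp [ent, plant3] <;> first | (simpa using hA) | (simpa using hB) | (simpa using hC)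
  change @Hurwitz 3 (closed 1 p (plant3 p a b c) K) ↔ _
  rw [hM]

end Pool.Agent.NPC.SOF
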