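import Pool.Agent.H625R2.SOF.Defs
import Pool.Agent.H625R2.Mem

/-!
# CLO: value of the closed loop term
-/

namespace Pool.Agent.NPC.SOF

open Pool.Agent.NPC Pool.Agent.NPC.ER Pool.Agent.NPC.ER.Tens Pool.Agent.NPC.H670R2

theorem clo_sum_flatMap (l : List ℕ) (f : ℕ → List ℝ) :
    (l.flatMap f).sum = (l.map fun s => (f s).sum).sum := by
  induction l with
  | nil => simp
  | cons a l ih => simp [List.flatMap_cons, ih]

theorem tCLO : S_CLO := by
  intro d m p P K v hv i j
  unfold cloTm closed
  rw [Tm.eval, eval_intTm, eval_sumTm, List.map_flatMap, clo_sum_flatMap, list_sum_fin]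
  have h1 : ∀ s : Fin m, (((List.range p).map fun t => Tm.mul (intTm (ent P.2.1 i s * ent P.2.2 t j))
      (Tm.var (vix d 0 0 s t))).map (Tm.eval v)).sum =
      ∑ t : Fin p, (ent P.2.1 i s : ℝ) * K s t * (ent P.2.2 t j : ℝ) := by
    intro s
    rw [List.map_map, list_sum_fin]
    refine Finset.sum_congr rfl fun t _ => ?_
    simp only [Function.comp_apply, Tm.eval, eval_intTm]
    rw [hv s t]
    push_cast
    ring
  rw [Finset.sum_congr rfl fun s _ => h1 s, Matrix.add_apply, Matrix.mul_apply]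
  congr 1
  rw [Finset.sum_comm]
  refine Finset.sum_congr rfl fun t _ => ?_
  rw [Matrix.mul_apply, Finset.sum_mul]
  rfl

end Pool.Agent.NPC.SOF
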