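import Pool.Agent.H625R2.SOF.Defs

namespace Pool.Agent.NPC.SOF

open Pool.Agent.NPC Pool.Agent.NPC.ER Pool.Agent.NPC.ER.Tens Pool.Agent.NPC.H670R2

/-- repeated squaring -/
noncomputable def cor1E : ℕ → ℝ
  | 0 => 1 / 4
  | j + 1 => cor1E j ^ 2 / 2

theorem cor1E_bd (j : ℕ) : 0 < cor1E j ∧ cor1E j ≤ 1 / 4 := by
  induction j with
  | zero =>
    unfold cor1E
    norm_num
  | succ j ih =>
    obtain ⟨h1, h2⟩ := ih
    have e : cor1E (j + 1) = cor1E j ^ 2 / 2 := rfl
    rw [e]
    constructor
    · positivity
    · nlinarith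

theorem cor1E_lt (j : ℕ) : cor1E (j + 1) < cor1E j * cor1E j := by
  have h1 := (cor1E_bd j).1
  have e : cor1E (j + 1) = cor1E j ^ 2 / 2 := rfl
  rw [e]
  have : 0 < cor1E j * cor1E j := by positivity
  nlinarith

theorem tCOR1 (h1 : S_RH3) (h2 : S_CL1) (h3 : S_CL3) (h4 : S_WF) : S_COR1 := by
  rintro N T hT ⟨w, hw, hc⟩
  set L := sq T with hL
  set p := N + L + 1 with hp
  let K : Matrix (Fin 1) (Fin (N + sq T + 1)) ℝ :=
    fun _ t => if (t : ℕ) < N then w t else cor1E ((t : ℕ) - N)
  set kk : ℕ → ℝ := fun t => if h : t < N + sq T + 1 then K 0 ⟨t, h⟩ else 0 with hkk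
  have kw : ∀ i, i < N → kk i = w i := by
    intro i hi
    have hi' : i < N + sq T + 1 := by omega
    rw [hkk]
    simp only [hi', dif_pos]
    simp [K, hi]
  have ke : ∀ j, j ≤ L → kk (N + j) = cor1E j := by
    intro j hj
    have hj' : N + j < N + sq T + 1 := by omega
    rw [hkk]
    simp only [hj', dif_pos]
    simp [K]
  have P1 : ∀ f : AF, f.Lt (N + sq T + 1) → 0 < f.val kk →
      Hurwitz (closed 1 (N + sq T + 1) (plant1 (N + sq T + 1) f) K) :=
    fun f hf hv => (h2 _ f hf K).2 hv
  have P3 : ∀ a b c : AF, a.Lt (N + sq T + 1) → b.Lt (N + sq T + 1) → c.Lt (N + sq T + 1) →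
      0 < a.val kk → 0 < c.val kk → c.val kk < a.val kk * b.val kk →
      Hurwitz (closed 1 (N + sq T + 1) (plant3 (N + sq T + 1) a b c) K) :=
    fun a b c ha hb hc' va vc vabc => (h3 _ a b c ha hb hc' K).2 ((h1 _ _ _).2 ⟨va, vc, vabc⟩)
  have hwb : ∀ i, -(1 / 8) ≤ w i ∧ w i ≤ 1 / 8 := fun i => abs_le.1 (hw i)
  refine ⟨(h4 N T).1, K, ?_⟩
  intro P hP
  have hP' : P ∈ sysP N T := hP
  show Hurwitz (closed 1 (N + sq T + 1) P K)
  unfold sysP at hP'
  rw [List.mem_append, List.mem_append, List.mem_flatMap, List.mem_cons, List.mem_map,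
    List.mem_flatMap] at hP'
  rcases hP' with (⟨i, hi, hPi⟩ | (rfl | ⟨j, hj, rfl⟩)) | ⟨c, hcT, hPc⟩
  · have hi' := List.mem_range.1 hi
    have hb := hwb i
    rcases List.mem_cons.1 hPi with rfl | hPi
    · refine P1 _ ⟨by simpa using by omega, by simp⟩ ?_
      simp only [AF.val, List.map_cons, List.map_nil, List.sum_cons, List.sum_nil, kw i hi']
      push_cast
      linarith
    · rw [List.mem_singleton] at hPi
      subst hPi
      refine P1 _ ⟨by simp, by simpa using by omega⟩ ?_
      simp only [AF.val, List.map_cons, List.map_nil, List.sum_cons, List.sum_nil, kw i hi']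
      push_cast
      linarith
  · have e0 : kk N = cor1E 0 := ke 0 (Nat.zero_le _)
    have b0 := cor1E_bd 0
    refine P1 _ ⟨by simp, by simp⟩ ?_
    simp only [AF.val, List.map_cons, List.map_nil, List.sum_cons, List.sum_nil, e0]
    push_cast
    linarith
  · have hj' := List.mem_range.1 hj
    have e1 : kk (N + j) = cor1E j := ke j (by omega)
    have e2 : kk (N + j + 1) = cor1E (j + 1) := ke (j + 1) (by omega)
    have b1 := (cor1E_bd j).1
    have b2 := (cor1E_bd (j + 1)).1
    have b3 := cor1E_lt j
    refine P3 _ _ _ ⟨by simp; omega, by simp⟩ ⟨by simp; omega, by simp⟩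
      ⟨by simp; omega, by simp⟩ ?_ ?_ ?_ <;>
    simp only [AF.val, List.map_cons, List.map_nil, List.sum_cons, List.sum_nil, e1, e2] <;>
    push_cast <;> linarith
  · have hcv := hT c hcT
    have hcc := hc c hcT
    have eL : kk (N + sq T) = cor1E L := ke L (le_refl _)
    have bL := cor1E_bd L
    cases c with
    | one i =>
      have hi : i < N := hcv i (by simp [Con.vars])
      have hh : w i = 1 / 8 := hcc
      simp only [conP, List.mem_cons, List.not_mem_nil, or_false] at hPc
      rcases hPc with rfl | rfl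
      · refine P1 _ ⟨by simp; omega, by simp⟩ ?_
        simp only [AF.val, List.map_cons, List.map_nil, List.sum_cons, List.sum_nil, kw i hi, eL]
        push_cast
        linarith
      · refine P1 _ ⟨by simp, by simp; omega⟩ ?_
        simp only [AF.val, List.map_cons, List.map_nil, List.sum_cons, List.sum_nil, kw i hi, eL]
        push_cast
        linarith
    | add i j k =>
      have hi : i < N := hcv i (by simp [Con.vars])
      have hj : j < N := hcv j (by simp [Con.vars])
      have hk : k < N := hcv k (by simp [Con.vars])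
      have hh : w i + w j = w k := hcc
      simp only [conP, List.mem_cons, List.not_mem_nil, or_false] at hPc
      rcases hPc with rfl | rfl
      · refine P1 _ ⟨by simp; omega, by simp; omega⟩ ?_
        simp only [AF.val, List.map_cons, List.map_nil, List.sum_cons, List.sum_nil, kw i hi,
          kw j hj, kw k hk, eL]
        push_cast
        linarith
      · refine P1 _ ⟨by simp; omega, by simp; omega⟩ ?_
        simp only [AF.val, List.map_cons, List.map_nil, List.sum_cons, List.sum_nil, kw i hi,
          kw j hj, kw k hk, eL]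
        push_cast
        linarith
    | mul i j k =>
      have hi : i < N := hcv i (by simp [Con.vars])
      have hj : j < N := hcv j (by simp [Con.vars])
      have hk : k < N := hcv k (by simp [Con.vars])
      have hh : w i * w j = w k := hcc
      have bi := hwb i
      have bj := hwb j
      have bk := hwb k
      simp only [conP, List.mem_cons, List.not_mem_nil, or_false] at hPc
      rcases hPc with rfl | rfl
      · refine P3 _ _ _ ⟨by simp, by simp; omega⟩ ⟨by simp; omega, by simp⟩
          ⟨by simp; omega, by simp; omega⟩ ?_ ?_ ?_ <;>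
        simp only [AF.val, List.map_cons, List.map_nil, List.sum_cons, List.sum_nil, kw i hi,
          kw j hj, kw k hk, eL] <;>
        push_cast <;> nlinarith
      · refine P3 _ _ _ ⟨by simp; omega, by simp⟩ ⟨by simp; omega, by simp⟩
          ⟨by simp; omega, by simp⟩ ?_ ?_ ?_ <;>
        simp only [AF.val, List.map_cons, List.map_nil, List.sum_cons, List.sum_nil, kw i hi,
          kw j hj, kw k hk, eL] <;>
        push_cast <;> nlinarith

end Pool.Agent.NPC.SOF
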