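import Pool.Agent.H625R2.SOF.Defs

/-!
# Task COR2: stabilisable plants give satisfiable systems
-/

namespace Pool.Agent.NPC.SOF

open Pool.Agent.NPC Pool.Agent.NPC.ER Pool.Agent.NPC.ER.Tens Pool.Agent.NPC.H670R2

theorem cor2_bound {k : ℕ → ℝ} {N s : ℕ} (h0 : k N < 1 / 2) (hs : 1 ≤ s)
    (h : ∀ j < s, 0 < k (N + j) ∧ 0 < k (N + j + 1) ∧ k (N + j + 1) < k (N + j) * k (N + j)) :
    ∀ j ≤ s, 0 < k (N + j) ∧ k (N + j) ≤ (1 / 2 : ℝ) ^ 2 ^ j := by
  intro j
  induction j with
  | zero =>
    intro _
    refine ⟨(h 0 hs).1, ?_⟩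
    simpa using h0.le
  | succ j ih =>
    intro hj
    obtain ⟨h1, h2⟩ := ih (by omega)
    obtain ⟨-, h4, h5⟩ := h j (by omega)
    refine ⟨h4, h5.le.trans ?_⟩
    calc k (N + j) * k (N + j) ≤ (1 / 2 : ℝ) ^ 2 ^ j * (1 / 2 : ℝ) ^ 2 ^ j :=
          mul_le_mul h2 h2 h1.le (by positivity)
      _ = (1 / 2 : ℝ) ^ 2 ^ (j + 1) := by
        rw [← pow_add]
        congr 1
        rw [pow_succ]
        ring

theorem tCOR2 (h1 : S_RH3) (h2 : S_CL1) (h3 : S_CL3) : S_COR2 := by
  intro N T hN hst
  obtain ⟨p, hp⟩ : ∃ p, p = N + sq T + 1 := ⟨_, rfl⟩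
  have hst' : ∃ K : Matrix (Fin 1) (Fin p) ℝ, ∀ P ∈ sysP N T, Hurwitz (closed 1 p P K) := by
    rw [hp]
    exact hst.2
  obtain ⟨K, hK⟩ := hst'
  set k : ℕ → ℝ := fun t => if h : t < p then K 0 ⟨t, h⟩ else 0 with hk
  have one : ∀ f : AF, f.Lt p → plant1 p f ∈ sysP N T → 0 < f.val k := fun f hf hm =>
    (h2 p f hf K).1 (hK _ hm)
  have three : ∀ a b c : AF, a.Lt p → b.Lt p → c.Lt p → plant3 p a b c ∈ sysP N T →
      0 < a.val k ∧ 0 < c.val k ∧ c.val k < a.val k * b.val k := fun a b c ha hb hc hm =>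
    (h1 _ _ _).1 ((h3 p a b c ha hb hc K).1 (hK _ hm))
  have hsq : 1 ≤ sq T := Nat.succ_pos _
  -- the cube
  have hcube : ∀ i < N, |k i| ≤ 1 := by
    intro i hi
    have m1 : plant1 p (1, [i], []) ∈ sysP N T := by
      unfold sysP
      refine List.mem_append_left _ (List.mem_append_left _
        (List.mem_flatMap.2 ⟨i, List.mem_range.2 hi, ?_⟩))
      simp [hp]
    have m2 : plant1 p (1, [], [i]) ∈ sysP N T := by
      unfold sysP
      refine List.mem_append_left _ (List.mem_append_left _
        (List.mem_flatMap.2 ⟨i, List.mem_range.2 hi, ?_⟩))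
      simp [hp]
    have e1 := one _ ⟨by simp; omega, by simp⟩ m1
    have e2 := one _ ⟨by simp, by simp; omega⟩ m2
    simp only [AF.val, List.map_cons, List.map_nil, List.sum_cons, List.sum_nil] at e1 e2
    push_cast at e1 e2
    rw [abs_le]
    constructor <;> linarith
  have hN2 : k N < 1 / 2 := by
    have m1 : plant1 p (1, [], [N, N]) ∈ sysP N T := by
      unfold sysP
      rw [hp]
      exact List.mem_append_left _ (List.mem_append_right _ List.mem_cons_self)
    have e1 := one _ ⟨by simp, by simp; omega⟩ m1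
    simp only [AF.val, List.map_cons, List.map_nil, List.sum_cons, List.sum_nil] at e1
    push_cast at e1
    linarith
  have hsqs : ∀ j < sq T, 0 < k (N + j) ∧ 0 < k (N + j + 1) ∧
      k (N + j + 1) < k (N + j) * k (N + j) := by
    intro j hj
    have m1 : plant3 p (0, [N + j], []) (0, [N + j], []) (0, [N + j + 1], []) ∈ sysP N T := by
      unfold sysP
      rw [hp]
      exact List.mem_append_left _ (List.mem_append_right _ (List.mem_cons_of_mem _
        (List.mem_map.2 ⟨j, List.mem_range.2 hj, rfl⟩)))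
    obtain ⟨e1, e2, e3⟩ := three _ _ _ ⟨by simp; omega, by simp⟩ ⟨by simp; omega, by simp⟩
      ⟨by simp; omega, by simp⟩ m1
    simp only [AF.val, List.map_cons, List.map_nil, List.sum_cons, List.sum_nil] at e1 e2 e3
    push_cast at e1 e2 e3
    simp only [zero_add, add_zero, sub_zero] at e1 e2 e3
    exact ⟨e1, e2, e3⟩
  obtain ⟨he0, he1⟩ := cor2_bound hN2 hsq hsqs (sq T) le_rfl
  set e : ℝ := k (N + sq T) with he
  have hgap : e * 2 ^ 2 ^ gapK T.length ≤ 1 := by
    have g1 : (2 : ℝ) ^ 2 ^ gapK T.length ≤ 2 ^ 2 ^ sq T :=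
      pow_le_pow_right₀ (by norm_num) (Nat.pow_le_pow_right (by norm_num) (Nat.le_succ _))
    calc e * 2 ^ 2 ^ gapK T.length ≤ (1 / 2 : ℝ) ^ 2 ^ sq T * 2 ^ 2 ^ sq T :=
          mul_le_mul he1 g1 (by positivity) (by positivity)
      _ = 1 := by rw [← mul_pow]; norm_num
  have mcon : ∀ c ∈ T, ∀ P ∈ conP p (N + sq T) c, P ∈ sysP N T := by
    intro c hc P hP
    unfold sysP
    rw [hp] at hP
    exact List.mem_append_right _ (List.mem_flatMap.2 ⟨c, hc, hP⟩)
  have hep : N + sq T < p := by omega
  have herr : ∀ c ∈ T, |c.err k| ≤ e := by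
    intro c hc
    have hv := hN c hc
    have hm := mcon c hc
    cases c with
    | one i =>
      have hi : i < N := hv i (by simp [Con.vars])
      have hi' : i < p := by omega
      have m1 := hm _ (show plant1 p (-1, [i, i, i, i, i, i, i, i, N + sq T], []) ∈ _ by
        simp [conP])
      have m2 := hm _ (show plant1 p (1, [N + sq T], [i, i, i, i, i, i, i, i]) ∈ _ by
        simp [conP])
      have e1 := one _ ⟨by simp [hi', hep], by simp⟩ m1
      have e2 := one _ ⟨by simp [hep], by simp [hi']⟩ m2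
      simp only [AF.val, List.map_cons, List.map_nil, List.sum_cons, List.sum_nil] at e1 e2
      push_cast at e1 e2
      simp only [Con.err]
      rw [abs_le]
      constructor <;> linarith
    | add i j l =>
      have hi' : i < p := by have := hv i (by simp [Con.vars]); omega
      have hj' : j < p := by have := hv j (by simp [Con.vars]); omega
      have hl' : l < p := by have := hv l (by simp [Con.vars]); omega
      have m1 := hm _ (show plant1 p (0, [i, j, N + sq T], [l]) ∈ _ by simp [conP])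
      have m2 := hm _ (show plant1 p (0, [l, N + sq T], [i, j]) ∈ _ by simp [conP])
      have e1 := one _ ⟨by simp [hi', hj', hep], by simp [hl']⟩ m1
      have e2 := one _ ⟨by simp [hl', hep], by simp [hi', hj']⟩ m2
      simp only [AF.val, List.map_cons, List.map_nil, List.sum_cons, List.sum_nil] at e1 e2
      push_cast at e1 e2
      simp only [Con.err]
      rw [abs_le]
      constructor <;> linarith
    | mul i j l =>
      have hi' : i < p := by have := hv i (by simp [Con.vars]); omega
      have hj' : j < p := by have := hv j (by simp [Con.vars]); omega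
      have hl' : l < p := by have := hv l (by simp [Con.vars]); omega
      have m1 := hm _ (show plant3 p (4, [], [i]) (4, [j], [])
        (16, [j, j, j, j], [i, i, i, i, l, N + sq T]) ∈ _ by simp [conP])
      have m2 := hm _ (show plant3 p (4, [i], []) (4, [j], [])
        (16, [i, i, i, i, j, j, j, j, l], [N + sq T]) ∈ _ by simp [conP])
      obtain ⟨-, -, e1⟩ := three _ _ _ ⟨by simp, by simp [hi']⟩ ⟨by simp [hj'], by simp⟩
        ⟨by simp [hj'], by simp [hi', hl', hep]⟩ m1
      obtain ⟨-, -, e2⟩ := three _ _ _ ⟨by simp [hi'], by simp⟩ ⟨by simp [hj'], by simp⟩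
        ⟨by simp [hi', hj', hl'], by simp [hep]⟩ m2
      simp only [AF.val, List.map_cons, List.map_nil, List.sum_cons, List.sum_nil] at e1 e2
      push_cast at e1 e2
      simp only [Con.err]
      rw [abs_le]
      constructor <;> nlinarith
  refine holds_of_approx (w := k) ?_ ?_
  · intro i hi
    obtain ⟨c, hc, hi⟩ := List.mem_flatMap.1 hi
    exact hcube i (hN c hc i hi)
  · intro c hc
    exact le_trans (mul_le_mul_of_nonneg_right (herr c hc) (by positivity)) hgap

end Pool.Agent.NPC.SOF
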