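import Pool.Agent.H625R2.SOF.Defs

namespace Pool.Agent.NPC.SOF

open Pool.Agent.NPC Pool.Agent.NPC.ER Pool.Agent.NPC.ER.Tens Pool.Agent.NPC.H670R2

theorem ent_sum (n : ℕ) (g : ℕ → ℝ) :
    ((List.range n).map g).sum = ∑ k : Fin n, g k := by
  rw [← Finset.sum_range]
  induction n with
  | zero => simp
  | succ n ih =>
    rw [List.range_succ, List.map_append, List.sum_append, ih, Finset.sum_range_succ]
    simp

theorem ent_sumTm (n : ℕ) (f : ℕ → Tm) (v : ℕ → ℝ) :
    (sumTm ((List.range n).map f)).eval v = ∑ k : Fin n, (f k).eval v := by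
  rw [eval_sumTm, List.map_map, ent_sum]
  rfl

theorem ent_mulRe (n : ℕ) (X X' Y Y' : ℕ → Tm) (v : ℕ → ℝ) :
    (mulRe n X X' Y Y').eval v =
      ∑ k : Fin n, ((X k).eval v * (Y k).eval v - (X' k).eval v * (Y' k).eval v) := by
  unfold mulRe
  rw [ent_sumTm]
  refine Finset.sum_congr rfl fun k _ => ?_
  simp only [Tm.eval]
  ring

theorem ent_mulIm (n : ℕ) (X X' Y Y' : ℕ → Tm) (v : ℕ → ℝ) :
    (mulIm n X X' Y Y').eval v =
      ∑ k : Fin n, ((X k).eval v * (Y' k).eval v + (X' k).eval v * (Y k).eval v) := by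
  unfold mulIm
  rw [ent_sumTm]
  refine Finset.sum_congr rfl fun k _ => ?_
  simp only [Tm.eval]

theorem ent_entry (h1 : S_CLO) (d m p q : ℕ) (P : LM × LM × LM) (K : Matrix (Fin m) (Fin p) ℝ)
    (v : ℕ → ℝ) (hK : ∀ (s : Fin m) (t : Fin p), v (vix d 0 0 s t) = K s t)
    (U V T : Matrix (Fin P.1.length) (Fin P.1.length) ℂ)
    (u1 : ∀ i j : Fin P.1.length, v (vix d 1 q i j) = (U i j).re)
    (u2 : ∀ i j : Fin P.1.length, v (vix d 2 q i j) = (U i j).im)
    (u3 : ∀ i j : Fin P.1.length, v (vix d 3 q i j) = (V i j).re)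
    (u4 : ∀ i j : Fin P.1.length, v (vix d 4 q i j) = (V i j).im)
    (u5 : ∀ i j : Fin P.1.length, v (vix d 5 q i j) = (T i j).re)
    (u6 : ∀ i j : Fin P.1.length, v (vix d 6 q i j) = (T i j).im) (i j : Fin P.1.length) :
    (∀ φ ∈ entFm d m p q P i j, φ.Holds v) ↔
      ((U * V) i j = (1 : Matrix (Fin P.1.length) (Fin P.1.length) ℂ) i j ∧
        ((closed m p P K).map Complex.ofReal * U) i j = (U * T) i j ∧
        (j < i → T i j = 0) ∧ (i = j → (T i j).re < 0)) := by
  have hclo : ∀ k : Fin P.1.length, (cloTm d m p P i k).eval v = closed m p P K i k :=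
    fun k => h1 d m p P K v hK i k
  unfold entFm
  simp only [List.forall_mem_cons, List.not_mem_nil, false_imp_iff, implies_true, and_true]
  have c1 : (Fm.eq (mulRe P.1.length (fun k => Tm.var (vix d 1 q i k))
      (fun k => Tm.var (vix d 2 q i k)) (fun k => Tm.var (vix d 3 q k j))
      (fun k => Tm.var (vix d 4 q k j))) (if (i : ℕ) = j then Tm.one else Tm.zero)).Holds v ↔
      ((U * V) i j).re = ((1 : Matrix (Fin P.1.length) (Fin P.1.length) ℂ) i j).re := by
    simp only [Fm.Holds, ent_mulRe, Tm.eval, u1, u2, u3, u4]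
    rw [Matrix.mul_apply, Complex.re_sum, Matrix.one_apply]
    simp only [Complex.mul_re]
    by_cases h : i = j
    · subst h
      simp [Tm.eval]
    · have h' : ¬ ((i : ℕ) = j) := fun h'' => h (Fin.ext h'')
      simp [h, h', Tm.eval]
  have c2 : (Fm.eq (mulIm P.1.length (fun k => Tm.var (vix d 1 q i k))
      (fun k => Tm.var (vix d 2 q i k)) (fun k => Tm.var (vix d 3 q k j))
      (fun k => Tm.var (vix d 4 q k j))) Tm.zero).Holds v ↔
      ((U * V) i j).im = ((1 : Matrix (Fin P.1.length) (Fin P.1.length) ℂ) i j).im := by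
    simp only [Fm.Holds, ent_mulIm, Tm.eval, u1, u2, u3, u4]
    rw [Matrix.mul_apply, Complex.im_sum, Matrix.one_apply]
    simp only [Complex.mul_im]
    by_cases h : i = j
    · subst h
      simp
    · simp [h]
  have c3 : (Fm.eq (sumTm ((List.range P.1.length).map fun k => Tm.mul (cloTm d m p P i k)
      (Tm.var (vix d 1 q k j)))) (mulRe P.1.length (fun k => Tm.var (vix d 1 q i k))
      (fun k => Tm.var (vix d 2 q i k)) (fun k => Tm.var (vix d 5 q k j))
      (fun k => Tm.var (vix d 6 q k j)))).Holds v ↔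
      (((closed m p P K).map Complex.ofReal * U) i j).re = ((U * T) i j).re := by
    simp only [Fm.Holds, ent_mulRe, ent_sumTm, Tm.eval, hclo, u1, u2, u5, u6]
    rw [Matrix.mul_apply, Matrix.mul_apply, Complex.re_sum, Complex.re_sum]
    simp only [Matrix.map_apply, Complex.mul_re, Complex.ofReal_re, Complex.ofReal_im, zero_mul,
      sub_zero]
  have c4 : (Fm.eq (sumTm ((List.range P.1.length).map fun k => Tm.mul (cloTm d m p P i k)
      (Tm.var (vix d 2 q k j)))) (mulIm P.1.length (fun k => Tm.var (vix d 1 q i k))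
      (fun k => Tm.var (vix d 2 q i k)) (fun k => Tm.var (vix d 5 q k j))
      (fun k => Tm.var (vix d 6 q k j)))).Holds v ↔
      (((closed m p P K).map Complex.ofReal * U) i j).im = ((U * T) i j).im := by
    simp only [Fm.Holds, ent_mulIm, ent_sumTm, Tm.eval, hclo, u1, u2, u5, u6]
    rw [Matrix.mul_apply, Matrix.mul_apply, Complex.im_sum, Complex.im_sum]
    simp only [Matrix.map_apply, Complex.mul_im, Complex.ofReal_re, Complex.ofReal_im, zero_mul,
      add_zero]
  have c5 : (if (j : ℕ) < i then Fm.eq (Tm.var (vix d 5 q i j)) Tm.zero else tt).Holds v ↔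
      (j < i → (T i j).re = 0) := by
    by_cases h : j < i
    · rw [if_pos (Fin.lt_def.1 h)]
      simp only [Fm.Holds, Tm.eval, u5]
      exact ⟨fun h' _ => h', fun h' => h' h⟩
    · rw [if_neg (fun h' => h (Fin.lt_def.2 h'))]
      exact ⟨fun _ h' => absurd h' h, fun _ => holds_tt v⟩
  have c6 : (if (j : ℕ) < i then Fm.eq (Tm.var (vix d 6 q i j)) Tm.zero else tt).Holds v ↔
      (j < i → (T i j).im = 0) := by
    by_cases h : j < i
    · rw [if_pos (Fin.lt_def.1 h)]
      simp only [Fm.Holds, Tm.eval, u6]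
      exact ⟨fun h' _ => h', fun h' => h' h⟩
    · rw [if_neg (fun h' => h (Fin.lt_def.2 h'))]
      exact ⟨fun _ h' => absurd h' h, fun _ => holds_tt v⟩
  have c7 : (if (i : ℕ) = j then Fm.lt (Tm.var (vix d 5 q i j)) Tm.zero else tt).Holds v ↔
      (i = j → (T i j).re < 0) := by
    by_cases h : i = j
    · rw [if_pos (congrArg Fin.val h)]
      simp only [Fm.Holds, Tm.eval, u5]
      exact ⟨fun h' _ => h', fun h' => h' h⟩
    · rw [if_neg (fun h' => h (Fin.ext h'))]
      exact ⟨fun _ h' => absurd h' h, fun _ => holds_tt v⟩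
  rw [c1, c2, c3, c4, c5, c6, c7]
  constructor
  · rintro ⟨a1, a2, a3, a4, a5, a6, a7⟩
    exact ⟨Complex.ext a1 a2, Complex.ext a3 a4, fun h => Complex.ext (a5 h) (a6 h), a7⟩
  · rintro ⟨a1, a2, a3, a4⟩
    exact ⟨congrArg Complex.re a1, congrArg Complex.im a1, congrArg Complex.re a2,
      congrArg Complex.im a2, fun h => congrArg Complex.re (a3 h),
      fun h => congrArg Complex.im (a3 h), a4⟩

theorem tENT (h1 : S_CLO) : S_ENT := by
  intro d m p q P K v hK U V T u1 u2 u3 u4 u5 u6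
  have key := ent_entry h1 d m p q P K v hK U V T u1 u2 u3 u4 u5 u6
  constructor
  · intro h
    have h' := fun i j => (key i j).1 (h i j)
    refine ⟨?_, ?_, fun i j => (h' i j).2.2.1, fun i => (h' i i).2.2.2 rfl⟩
    · ext i j
      exact (h' i j).1
    · ext i j
      exact (h' i j).2.1
  · rintro ⟨a1, a2, a3, a4⟩ i j
    refine (key i j).2 ⟨by rw [a1], by rw [a2], a3 i j, fun h => ?_⟩
    subst h
    exact a4 i

end Pool.Agent.NPC.SOF
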