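import Pool.Agent.H625R2.SOF.Defs
import Pool.Agent.H671R2.PolyAuto

namespace Pool.Agent.NPC.SOF

open Pool.Agent.NPC Pool.Agent.NPC.ER Pool.Agent.NPC.ER.Tens Pool.Agent.NPC.H670R2

section
variable {α : Type} [TEnc α]

theorem pol_ent {M : α → LM} {i j : α → ℕ} (hM : Poly M) (hi : Poly i) (hj : Poly j) :
    Poly (fun a => ent (M a) (i a) (j a)) := by
  unfold ent
  exact Poly.getD (Poly.getD hM hi (Poly.const [])) hj (Poly.const 0)

theorem pol_mul {x y : α → ℤ} (hx : Poly x) (hy : Poly y) : Poly (fun a => x a * y a) := by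
  have h1 := poly_natAbs hx
  have h2 := poly_natAbs hy
  have h0 : Poly (fun a => (x a).natAbs * (y a).natAbs) := Poly.mul h1 h2
  have s1 : Poly (fun a => decide (x a < 0)) := poly_isNeg hx
  have s2 : Poly (fun a => decide (y a < 0)) := poly_isNeg hy
  have b : Poly (fun a => xor (decide (x a < 0)) (decide (y a < 0))) := Poly.xor s1 s2
  have h3 : Poly (fun a => if xor (decide (x a < 0)) (decide (y a < 0)) = true then 0 else
      (x a).natAbs * (y a).natAbs) := Poly.ite (Poly.decide_bool b) (Poly.const 0) h0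
  have h4 : Poly (fun a => if xor (decide (x a < 0)) (decide (y a < 0)) = true then
      (x a).natAbs * (y a).natAbs else 0) := Poly.ite (Poly.decide_bool b) h0 (Poly.const 0)
  refine (poly_intSub h3 h4).congr fun a => ?_
  rcases lt_or_ge (x a) 0 with h5 | h5 <;> rcases lt_or_ge (y a) 0 with h6 | h6
  · simp [h5, h6, abs_of_neg h5, abs_of_neg h6]
  · simp [h5, not_lt.mpr h6, abs_of_neg h5, abs_of_nonneg h6]
  · simp [not_lt.mpr h5, h6, abs_of_nonneg h5, abs_of_neg h6]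
  · simp [not_lt.mpr h5, not_lt.mpr h6, abs_of_nonneg h5, abs_of_nonneg h6]

theorem pol_vix {d kd q i j : α → ℕ} (hd : Poly d) (hk : Poly kd) (hq : Poly q) (hi : Poly i)
    (hj : Poly j) : Poly (fun a => vix (d a) (kd a) (q a) (i a) (j a)) := by
  unfold vix
  fun_prop

theorem pol_clo {d m p i j : α → ℕ} {P : α → LM × LM × LM} (hd : Poly d) (hm : UPoly m)
    (hp : UPoly p) (hP : Poly P) (hi : Poly i) (hj : Poly j) :
    Poly (fun a => cloTm (d a) (m a) (p a) (P a) (i a) (j a)) := by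
  unfold cloTm
  refine poly_tadd (poly_intTm (pol_ent (Poly.fst hP) hi hj)) (poly_sumTm ?_)
  refine Poly.flatMap (F := fun a s => (List.range (p a)).map fun t =>
    Tm.mul (intTm (ent (P a).2.1 (i a) s * ent (P a).2.2 t (j a))) (Tm.var (vix (d a) 0 0 s t)))
    hm.range ?_
  refine Poly.map (F := fun (x : α × ℕ) t =>
    Tm.mul (intTm (ent (P x.1).2.1 (i x.1) x.2 * ent (P x.1).2.2 t (j x.1)))
      (Tm.var (vix (d x.1) 0 0 x.2 t))) (UPoly.range (UPoly.comp hp (Poly.fst Poly.id))) ?_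
  have f1 : Poly (fun y : (α × ℕ) × ℕ => y.1.1) := Poly.fst (Poly.fst Poly.id)
  have f2 : Poly (fun y : (α × ℕ) × ℕ => y.1.2) := Poly.snd (Poly.fst Poly.id)
  have f3 : Poly (fun y : (α × ℕ) × ℕ => y.2) := Poly.snd Poly.id
  refine poly_tmul (poly_intTm (pol_mul (pol_ent (Poly.fst (Poly.snd (hP.comp f1))) (hi.comp f1) f2)
    (pol_ent (Poly.snd (Poly.snd (hP.comp f1))) f3 (hj.comp f1)))) (poly_tvar ?_)
  exact pol_vix (hd.comp f1) (Poly.const 0) (Poly.const 0) f2 f3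

theorem pol_mulRe {n : α → ℕ} {X X' Y Y' : α → ℕ → Tm} (hn : UPoly n)
    (h1 : Poly (fun x : α × ℕ => X x.1 x.2)) (h2 : Poly (fun x : α × ℕ => X' x.1 x.2))
    (h3 : Poly (fun x : α × ℕ => Y x.1 x.2)) (h4 : Poly (fun x : α × ℕ => Y' x.1 x.2)) :
    Poly (fun a => mulRe (n a) (X a) (X' a) (Y a) (Y' a)) := by
  unfold mulRe
  exact poly_sumTm (Poly.map (F := fun a k => Tm.add (Tm.mul (X a k) (Y a k))
    (Tm.neg (Tm.mul (X' a k) (Y' a k)))) hn.range
    (poly_tadd (poly_tmul h1 h3) (poly_tneg (poly_tmul h2 h4))))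

theorem pol_mulIm {n : α → ℕ} {X X' Y Y' : α → ℕ → Tm} (hn : UPoly n)
    (h1 : Poly (fun x : α × ℕ => X x.1 x.2)) (h2 : Poly (fun x : α × ℕ => X' x.1 x.2))
    (h3 : Poly (fun x : α × ℕ => Y x.1 x.2)) (h4 : Poly (fun x : α × ℕ => Y' x.1 x.2)) :
    Poly (fun a => mulIm (n a) (X a) (X' a) (Y a) (Y' a)) := by
  unfold mulIm
  exact poly_sumTm (Poly.map (F := fun a k => Tm.add (Tm.mul (X a k) (Y' a k))
    (Tm.mul (X' a k) (Y a k))) hn.range
    (poly_tadd (poly_tmul h1 h4) (poly_tmul h2 h3)))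

theorem pol_ent7 {d m p q i j : α → ℕ} {P : α → LM × LM × LM} (hd : Poly d) (hm : UPoly m)
    (hp : UPoly p) (hq : Poly q) (hP : Poly P) (hi : Poly i) (hj : Poly j) :
    Poly (fun a => entFm (d a) (m a) (p a) (q a) (P a) (i a) (j a)) := by
  unfold entFm
  have hn : UPoly (fun a => (P a).1.length) := UPoly.length (Poly.fst hP)
  have e1 : Poly (fun x : α × ℕ => x.1) := Poly.fst Poly.id
  have e2 : Poly (fun x : α × ℕ => x.2) := Poly.snd Poly.id
  have vr : ∀ kd : ℕ, Poly (fun x : α × ℕ => Tm.var (vix (d x.1) kd (q x.1) (i x.1) x.2)) :=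
    fun kd => poly_tvar (pol_vix (hd.comp e1) (Poly.const kd) (hq.comp e1) (hi.comp e1) e2)
  have vc : ∀ kd : ℕ, Poly (fun x : α × ℕ => Tm.var (vix (d x.1) kd (q x.1) x.2 (j x.1))) :=
    fun kd => poly_tvar (pol_vix (hd.comp e1) (Poly.const kd) (hq.comp e1) e2 (hj.comp e1))
  have vv : ∀ kd : ℕ, Poly (fun a : α => Tm.var (vix (d a) kd (q a) (i a) (j a))) :=
    fun kd => poly_tvar (pol_vix hd (Poly.const kd) hq hi hj)
  have clo : Poly (fun x : α × ℕ => cloTm (d x.1) (m x.1) (p x.1) (P x.1) (i x.1) x.2) :=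
    pol_clo (hd.comp e1) (UPoly.comp hm e1) (UPoly.comp hp e1) (hP.comp e1) (hi.comp e1) e2
  have hij : Poly (fun a => decide (i a = j a)) := Poly.decide_eq hi hj
  have hji : Poly (fun a => decide (j a < i a)) := Poly.decide_lt hj hi
  refine Poly.cons (poly_eq (pol_mulRe hn (vr 1) (vr 2) (vc 3) (vc 4))
    (Poly.ite (p := fun a => i a = j a) hij (Poly.const _) (Poly.const _))) ?_
  refine Poly.cons (poly_eq (pol_mulIm hn (vr 1) (vr 2) (vc 3) (vc 4)) (Poly.const _)) ?_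
  refine Poly.cons (poly_eq (poly_sumTm (Poly.map (F := fun a k => Tm.mul
    (cloTm (d a) (m a) (p a) (P a) (i a) k) (Tm.var (vix (d a) 1 (q a) k (j a)))) hn.range
    (poly_tmul clo (vc 1)))) (pol_mulRe hn (vr 1) (vr 2) (vc 5) (vc 6))) ?_
  refine Poly.cons (poly_eq (poly_sumTm (Poly.map (F := fun a k => Tm.mul
    (cloTm (d a) (m a) (p a) (P a) (i a) k) (Tm.var (vix (d a) 2 (q a) k (j a)))) hn.range
    (poly_tmul clo (vc 2)))) (pol_mulIm hn (vr 1) (vr 2) (vc 5) (vc 6))) ?_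
  refine Poly.cons (Poly.ite (p := fun a => j a < i a) hji (poly_eq (vv 5) (Poly.const _))
    (Poly.const _)) ?_
  refine Poly.cons (Poly.ite (p := fun a => j a < i a) hji (poly_eq (vv 6) (Poly.const _))
    (Poly.const _)) ?_
  exact Poly.cons (Poly.ite (p := fun a => i a = j a) hij (poly_lt (vv 5) (Poly.const _))
    (Poly.const _)) (Poly.const _)

end

theorem pol_dimB : Poly dimB := by
  unfold dimB
  refine Poly.length (Poly.flatMap (F := fun (_ : Inst) (P : LM × LM × LM) =>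
    P.1.map (fun _ => ()) ++ (P.2.2.map (fun _ => ()) ++ (P.2.1.getD 0 []).map fun _ => ()))
    (Poly.snd Poly.id) ?_)
  have e2 : Poly (fun x : Inst × (LM × LM × LM) => x.2) := Poly.snd Poly.id
  refine Poly.append (Poly.map (F := fun _ _ => ()) (Poly.fst e2) (Poly.const _))
    (Poly.append (Poly.map (F := fun _ _ => ()) (Poly.snd (Poly.snd e2)) (Poly.const _))
    (Poly.map (F := fun _ _ => ()) (Poly.getD (Poly.fst (Poly.snd e2)) (Poly.const 0)
      (Poly.const [])) (Poly.const _)))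

theorem tPOL : S_POL := by
  unfold S_POL plantsFm
  refine poly_conj (Poly.flatMap (F := fun (I : Inst) (P : (LM × LM × LM) × ℕ) =>
    (List.range P.1.1.length).flatMap fun i => (List.range P.1.1.length).flatMap fun j =>
    entFm (dimB I) (P.1.2.1.getD 0 []).length P.1.2.2.length P.2 P.1 i j)
    (Poly.zipIdx (Poly.snd Poly.id)) ?_)
  refine Poly.flatMap (F := fun (x : Inst × ((LM × LM × LM) × ℕ)) i =>
    (List.range x.2.1.1.length).flatMap fun j =>
    entFm (dimB x.1) (x.2.1.2.1.getD 0 []).length x.2.1.2.2.length x.2.2 x.2.1 i j)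
    (UPoly.range (UPoly.length (Poly.fst (Poly.fst (Poly.snd Poly.id))))) ?_
  refine Poly.flatMap (F := fun (y : (Inst × ((LM × LM × LM) × ℕ)) × ℕ) j =>
    entFm (dimB y.1.1) (y.1.2.1.2.1.getD 0 []).length y.1.2.1.2.2.length y.1.2.2 y.1.2.1 y.2 j)
    (UPoly.range (UPoly.length (Poly.fst (Poly.fst (Poly.snd (Poly.fst Poly.id)))))) ?_
  have a1 : Poly (fun z : ((Inst × ((LM × LM × LM) × ℕ)) × ℕ) × ℕ => z.1.1) :=
    Poly.fst (Poly.fst Poly.id)
  have a2 : Poly (fun z : ((Inst × ((LM × LM × LM) × ℕ)) × ℕ) × ℕ => z.1.1.2.1) :=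
    Poly.fst (Poly.snd a1)
  exact pol_ent7 (pol_dimB.comp (Poly.fst a1))
    (UPoly.length (Poly.getD (Poly.fst (Poly.snd a2)) (Poly.const 0) (Poly.const [])))
    (UPoly.length (Poly.snd (Poly.snd a2))) (Poly.snd (Poly.snd a1)) a2
    (Poly.snd (Poly.fst Poly.id)) (Poly.snd Poly.id)

end Pool.Agent.NPC.SOF
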