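import Pool.Agent.H625R2.SOF.Defs
import Pool.Agent.H671R2.PolyAuto

/-!
# The reduction is computable in polynomial time
-/

namespace Pool.Agent.NPC.SOF

open Pool.Agent.NPC Pool.Agent.NPC.ER Pool.Agent.NPC.ER.Tens Pool.Agent.NPC.H670R2

section
variable {α : Type} [TEnc α]

theorem red_neg {z : α → ℤ} (hz : Poly z) : Poly (fun a => - z a) := by
  have h1 := poly_isNeg hz
  have h2 := poly_natAbs hz
  have h3 : Poly (fun a => if z a < 0 then (z a).natAbs else 0) :=
    Poly.ite (p := fun a => z a < 0) h1 h2 (Pool.Agent.NPC.Poly.const 0)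
  have h4 : Poly (fun a => if z a < 0 then 0 else (z a).natAbs) :=
    Poly.ite (p := fun a => z a < 0) h1 (Pool.Agent.NPC.Poly.const 0) h2
  refine (poly_intSub h3 h4).congr fun a => ?_
  split_ifs with h
  · push_cast
    rw [abs_of_neg h]
    ring
  · push_cast
    rw [abs_of_nonneg (not_lt.1 h)]
    ring

theorem red_count {l : α → List ℕ} {t : α → ℕ} (hl : Poly l) (ht : Poly t) :
    Poly (fun a => (l a).count (t a)) := by
  refine (Poly.length (Poly.filter (p := fun a x => decide (x = t a)) hl
    (by fun_prop))).congr fun a => ?_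
  rw [List.count_eq_length_filter]
  congr 1

theorem red_nco {f : α → AF} {t : α → ℕ} (hf : Poly f) (ht : Poly t) :
    Poly (fun a => (f a).nco (t a)) := by
  unfold AF.nco
  have h1 : Poly (fun a => (f a).2.2) := Poly.snd (Poly.snd hf)
  have h2 : Poly (fun a => (f a).2.1) := Poly.fst (Poly.snd hf)
  exact poly_intSub (red_count h1 ht) (red_count h2 ht)

theorem red_plant1 {p : α → ℕ} {f : α → AF} (hp : UPoly p) (hf : Poly f) :
    Poly (fun a => plant1 (p a) (f a)) := by
  unfold plant1
  have h1 : Poly (fun a => - (f a).1) := red_neg (Poly.fst hf)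
  have h2 : Poly (fun q : α × ℕ => [(f q.1).nco q.2]) :=
    Poly.cons (red_nco (hf.comp (Poly.fst Poly.id)) (Poly.snd Poly.id)) (Poly.const [])
  refine Poly.pair (Poly.cons (Poly.cons h1 (Poly.const [])) (Poly.const []))
    (Poly.pair (Poly.const _) (Pool.Agent.NPC.Poly.map (F := fun a t => [(f a).nco t])
      hp.range h2))

theorem red_plant3 {p : α → ℕ} {a b c : α → AF} (hp : UPoly p) (ha : Poly a) (hb : Poly b)
    (hc : Poly c) : Poly (fun x => plant3 (p x) (a x) (b x) (c x)) := by
  unfold plant3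
  have h1 : Poly (fun x => - (a x).1) := red_neg (Poly.fst ha)
  have h2 : Poly (fun x => - (b x).1) := red_neg (Poly.fst hb)
  have h3 : Poly (fun x => - (c x).1) := red_neg (Poly.fst hc)
  have h4 : Poly (fun q : α × ℕ => [(c q.1).nco q.2, (b q.1).nco q.2, (a q.1).nco q.2]) :=
    Poly.cons (red_nco (hc.comp (Poly.fst Poly.id)) (Poly.snd Poly.id))
      (Poly.cons (red_nco (hb.comp (Poly.fst Poly.id)) (Poly.snd Poly.id))
        (Poly.cons (red_nco (ha.comp (Poly.fst Poly.id)) (Poly.snd Poly.id)) (Poly.const [])))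
  refine Poly.pair (Poly.cons (Poly.const _) (Poly.cons (Poly.const _) (Poly.cons
    (Poly.cons h3 (Poly.cons h2 (Poly.cons h1 (Poly.const [])))) (Poly.const []))))
    (Poly.pair (Poly.const _) (Pool.Agent.NPC.Poly.map
      (F := fun x t => [(c x).nco t, (b x).nco t, (a x).nco t]) hp.range h4))

/-- affine forms -/
theorem red_af {z : α → ℤ} {P Q : α → List ℕ} (hz : Poly z) (hP : Poly P) (hQ : Poly Q) :
    Poly (fun a => ((z a, P a, Q a) : AF)) := Poly.pair hz (Poly.pair hP hQ)

theorem red_conP {p e : α → ℕ} {c : α → Con} (hp : UPoly p) (he : Poly e) (hc : Poly c) :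
    Poly (fun a => conP (p a) (e a) (c a)) := by
  have h := poly_con_code hc
  have g1 : Poly (fun a => (c a).code.2.1) := Poly.fst (Poly.snd h)
  have g2 : Poly (fun a => (c a).code.2.2.1) := Poly.fst (Poly.snd (Poly.snd h))
  have g3 : Poly (fun a => (c a).code.2.2.2) := Poly.snd (Poly.snd (Poly.snd h))
  have k0 : Poly (fun a => decide ((c a).code.1 = 0)) := Poly.decide_eq (Poly.fst h) (Poly.const _)
  have k1 : Poly (fun a => decide ((c a).code.1 = 1)) := Poly.decide_eq (Poly.fst h) (Poly.const _)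
  have e0 : Poly (fun _ : α => ([] : List ℕ)) := Poly.const _
  have a1 : Poly (fun a => [plant1 (p a) ((-1, [(c a).code.2.1, (c a).code.2.1, (c a).code.2.1,
      (c a).code.2.1, (c a).code.2.1, (c a).code.2.1, (c a).code.2.1, (c a).code.2.1, e a],
        []) : AF),
      plant1 (p a) ((1, [e a], [(c a).code.2.1, (c a).code.2.1, (c a).code.2.1,
      (c a).code.2.1, (c a).code.2.1, (c a).code.2.1, (c a).code.2.1, (c a).code.2.1]) : AF)]) := by
    refine Poly.cons (red_plant1 hp (red_af (Poly.const (-1)) (by fun_prop) e0))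
      (Poly.cons (red_plant1 hp (red_af (Poly.const 1) (by fun_prop) (by fun_prop)))
        (Poly.const []))
  have a2 : Poly (fun a => [plant1 (p a) ((0, [(c a).code.2.1, (c a).code.2.2.1, e a],
        [(c a).code.2.2.2]) : AF),
      plant1 (p a) ((0, [(c a).code.2.2.2, e a], [(c a).code.2.1, (c a).code.2.2.1]) : AF)]) := by
    refine Poly.cons (red_plant1 hp (red_af (Poly.const 0) (by fun_prop) (by fun_prop)))
      (Poly.cons (red_plant1 hp (red_af (Poly.const 0) (by fun_prop) (by fun_prop)))
        (Poly.const []))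
  have a3 : Poly (fun a => [plant3 (p a) ((4, [], [(c a).code.2.1]) : AF)
        ((4, [(c a).code.2.2.1], []) : AF)
        ((16, [(c a).code.2.2.1, (c a).code.2.2.1, (c a).code.2.2.1, (c a).code.2.2.1],
          [(c a).code.2.1, (c a).code.2.1, (c a).code.2.1, (c a).code.2.1, (c a).code.2.2.2,
            e a]) : AF),
      plant3 (p a) ((4, [(c a).code.2.1], []) : AF) ((4, [(c a).code.2.2.1], []) : AF)
        ((16, [(c a).code.2.1, (c a).code.2.1, (c a).code.2.1, (c a).code.2.1,
          (c a).code.2.2.1, (c a).code.2.2.1, (c a).code.2.2.1, (c a).code.2.2.1,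
          (c a).code.2.2.2], [e a]) : AF)]) := by
    refine Poly.cons (red_plant3 hp (red_af (Poly.const 4) e0 (by fun_prop))
      (red_af (Poly.const 4) (by fun_prop) e0)
      (red_af (Poly.const 16) (by fun_prop) (by fun_prop)))
      (Poly.cons (red_plant3 hp (red_af (Poly.const 4) (by fun_prop) e0)
      (red_af (Poly.const 4) (by fun_prop) e0)
      (red_af (Poly.const 16) (by fun_prop) (by fun_prop)))
        (Poly.const []))
  refine (Poly.ite k0 a1 (Poly.ite k1 a2 a3)).congr fun a => ?_
  cases c a <;> simp [Con.code, conP]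

theorem red_sysP {N : α → ℕ} {T : α → List Con} (hN : UPoly N) (hT : Poly T) :
    Poly (fun a => sysP (N a) (T a)) := by
  have hs : UPoly (fun a => sq (T a)) := by
    unfold sq gapK
    exact UPoly.add (UPoly.add (UPoly.mul (UPoly.const 11) (UPoly.length hT)) (UPoly.const 7))
      (UPoly.const 1)
  have hp : UPoly (fun a => N a + sq (T a) + 1) := UPoly.add (UPoly.add hN hs) (UPoly.const 1)
  have hN' : Poly N := hN.toPoly
  have hs' : Poly (fun a => sq (T a)) := hs.toPoly
  have hpc : UPoly (fun x : α × ℕ => N x.1 + sq (T x.1) + 1) :=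
    hp.comp (f := fun x : α × ℕ => x.1) (Poly.fst Poly.id)
  have hpc2 : UPoly (fun x : α × Con => N x.1 + sq (T x.1) + 1) :=
    hp.comp (f := fun x : α × Con => x.1) (Poly.fst Poly.id)
  have e0 : Poly (fun _ : α × ℕ => ([] : List ℕ)) := Poly.const _
  have q1 : Poly (fun x : α × ℕ => [plant1 (N x.1 + sq (T x.1) + 1) ((1, [x.2], []) : AF),
      plant1 (N x.1 + sq (T x.1) + 1) ((1, [], [x.2]) : AF)]) :=
    Poly.cons (red_plant1 hpc (red_af (Poly.const 1) (by fun_prop) e0))
      (Poly.cons (red_plant1 hpc (red_af (Poly.const 1) e0 (by fun_prop))) (Poly.const []))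
  have q2 : Poly (fun a => plant1 (N a + sq (T a) + 1) ((1, [], [N a, N a]) : AF)) :=
    red_plant1 hp (red_af (Poly.const 1) (Poly.const _) (by fun_prop))
  have q3 : Poly (fun x : α × ℕ => plant3 (N x.1 + sq (T x.1) + 1)
      ((0, [N x.1 + x.2], []) : AF) ((0, [N x.1 + x.2], []) : AF)
      ((0, [N x.1 + x.2 + 1], []) : AF)) :=
    red_plant3 hpc (red_af (Poly.const 0) (by fun_prop) e0)
      (red_af (Poly.const 0) (by fun_prop) e0) (red_af (Poly.const 0) (by fun_prop) e0)
  have q4 : Poly (fun x : α × Con => conP (N x.1 + sq (T x.1) + 1) (N x.1 + sq (T x.1)) x.2) :=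
    red_conP hpc2 (Poly.add (hN'.comp (Poly.fst Poly.id)) (hs'.comp (Poly.fst Poly.id)))
      (Poly.snd Poly.id)
  unfold sysP
  refine Poly.append (Poly.append (Poly.flatMap (F := fun a i =>
    [plant1 (N a + sq (T a) + 1) ((1, [i], []) : AF),
      plant1 (N a + sq (T a) + 1) ((1, [], [i]) : AF)]) hN.range q1)
    (Poly.cons q2 (Pool.Agent.NPC.Poly.map (F := fun a j => plant3 (N a + sq (T a) + 1)
      ((0, [N a + j], []) : AF) ((0, [N a + j], []) : AF)
      ((0, [N a + j + 1], []) : AF)) hs.range q3)))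
    (Poly.flatMap (F := fun a c => conP (N a + sq (T a) + 1) (N a + sq (T a)) c) hT q4)

end

theorem tRED : S_RED := by
  unfold S_RED red sysI
  have hb : Poly (fun S : List Con => bsys S) := poly_bsys Poly.id
  have hN : UPoly (fun S : List Con => (allVars (bsys S)).length) :=
    UPoly.length (poly_allVars.comp hb)
  have hT : Poly (fun S : List Con => renS (bsys S)) := poly_renS.comp hb
  have hs : UPoly (fun S : List Con => sq (renS (bsys S))) := by
    unfold sq gapK
    exact UPoly.add (UPoly.add (UPoly.mul (UPoly.const 11) (UPoly.length hT)) (UPoly.const 7))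
      (UPoly.const 1)
  have hp : Poly (fun S : List Con => (allVars (bsys S)).length + sq (renS (bsys S)) + 1) :=
    (UPoly.add (UPoly.add hN hs) (UPoly.const 1)).toPoly
  exact Poly.pair (Poly.pair (Poly.const 1) hp) (red_sysP hN hT)

end Pool.Agent.NPC.SOF
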