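import Pool.Agent.H625R2.SOF.Defs

/-! Task RH3 of helper625's project SOF (by helper747): Routh-Hurwitz criterion for cubics. -/

set_option autoImplicit false

namespace Pool.Agent.NPC.SOF

open Complex

theorem rh3_reim (a b c s w : ℝ) :
    ((s : ℂ) + w * I) ^ 3 + a * ((s : ℂ) + w * I) ^ 2 + b * ((s : ℂ) + w * I) + c =
      ((s ^ 3 - 3 * s * w ^ 2 + a * (s ^ 2 - w ^ 2) + b * s + c : ℝ) : ℂ) +
      ((w * (3 * s ^ 2 - w ^ 2 + 2 * a * s + b) : ℝ) : ℂ) * I := by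
  push_cast
  linear_combination (3 * (s : ℂ) * w ^ 2 + w ^ 3 * I + a * w ^ 2) * I_sq

theorem rh3_ext (x y : ℝ) (h : (x : ℂ) + (y : ℂ) * I = 0) : x = 0 ∧ y = 0 := by
  have h1 := congrArg Complex.re h
  have h2 := congrArg Complex.im h
  simp at h1 h2
  exact ⟨h1, h2⟩

theorem rh3_suff (a b c : ℝ) (ha : 0 < a) (hc : 0 < c) (hab : c < a * b) (z : ℂ)
    (hz : z ^ 3 + a * z ^ 2 + b * z + c = 0) : z.re < 0 := by
  by_contra hre
  push Not at hre
  have hb : 0 < b := by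
    by_contra hb
    push Not at hb
    nlinarith
  rw [← re_add_im z, rh3_reim] at hz
  obtain ⟨h1, h2⟩ := rh3_ext _ _ hz
  set s := z.re
  set w := z.im
  rcases mul_eq_zero.1 h2 with h3 | h3
  · rw [h3] at h1
    have : 0 < s ^ 3 - 3 * s * 0 ^ 2 + a * (s ^ 2 - 0 ^ 2) + b * s + c := by
      have := pow_nonneg hre 3
      have := mul_nonneg ha.le (pow_nonneg hre 2)
      have := mul_nonneg hb.le hre
      nlinarith
    linarith
  · have hw : w ^ 2 = 3 * s ^ 2 + 2 * a * s + b := by linarith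
    rw [hw] at h1
    have e : s ^ 3 - 3 * s * (3 * s ^ 2 + 2 * a * s + b) + a * (s ^ 2 - (3 * s ^ 2 + 2 * a * s + b))
        + b * s + c = -8 * s ^ 3 - 8 * a * s ^ 2 - 2 * (a ^ 2 + b) * s - a * b + c := by ring
    rw [e] at h1
    have := pow_nonneg hre 3
    have := mul_nonneg ha.le (pow_nonneg hre 2)
    have := mul_nonneg (by positivity : 0 ≤ a ^ 2 + b) hre
    nlinarith

/-- a nonnegative real root -/
theorem rh3_real (a b c x : ℝ) (H : ∀ z : ℂ, z ^ 3 + a * z ^ 2 + b * z + c = 0 → z.re < 0)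
    (hx : 0 ≤ x) (h : x ^ 3 + a * x ^ 2 + b * x + c = 0) : False := by
  have h1 := H (x : ℂ) (by exact_mod_cast h)
  rw [ofReal_re] at h1
  linarith

theorem rh3_cont (a b c d : ℝ) : Continuous fun x : ℝ => d * x ^ 3 + a * x ^ 2 + b * x + c := by
  fun_prop

theorem rh3_nec_c (a b c : ℝ) (H : ∀ z : ℂ, z ^ 3 + a * z ^ 2 + b * z + c = 0 → z.re < 0) :
    0 < c := by
  by_contra hc
  push Not at hc
  set R : ℝ := 1 + |a| + |b| + |c| with hR
  have ha0 := abs_nonneg a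
  have hb0 := abs_nonneg b
  have hc0 := abs_nonneg c
  have hR1 : 1 ≤ R := by linarith
  have hR2 : R ≤ R ^ 2 := by nlinarith
  have hR3 : 1 ≤ R ^ 2 := by nlinarith
  have h1 : 0 ≤ 1 * R ^ 3 + a * R ^ 2 + b * R + c := by
    have e1 : -(|a| * R ^ 2) ≤ a * R ^ 2 := by nlinarith [neg_abs_le a, sq_nonneg R]
    have e2 : -(|b| * R ^ 2) ≤ b * R := by nlinarith [neg_abs_le b, mul_nonneg hb0 (by linarith : 0 ≤ R ^ 2 - R)]
    have e3 : -(|c| * R ^ 2) ≤ c := by nlinarith [neg_abs_le c, mul_nonneg hc0 (by linarith : 0 ≤ R ^ 2 - 1)]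
    have e4 : R ^ 3 = R ^ 2 + |a| * R ^ 2 + |b| * R ^ 2 + |c| * R ^ 2 := by
      rw [hR]; ring
    nlinarith [sq_nonneg R]
  have h0 : 1 * (0 : ℝ) ^ 3 + a * 0 ^ 2 + b * 0 + c ≤ 0 := by simpa using hc
  obtain ⟨x, hx, hx2⟩ := intermediate_value_Icc (by linarith : (0 : ℝ) ≤ R)
    (rh3_cont a b c 1).continuousOn ⟨h0, h1⟩
  exact rh3_real a b c x H hx.1 (by simpa using hx2)

theorem rh3_nec_ab (a b c : ℝ) (H : ∀ z : ℂ, z ^ 3 + a * z ^ 2 + b * z + c = 0 → z.re < 0) :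
    c < a * b := by
  by_contra hc
  push Not at hc
  set R : ℝ := 1 + |a| + (a ^ 2 + |b|) + (c - a * b) with hR
  have ha0 := abs_nonneg a
  have hb0 := abs_nonneg b
  have hd0 : 0 ≤ c - a * b := by linarith
  have ha2 := sq_nonneg a
  have hR1 : 1 ≤ R := by linarith
  have hR2 : R ≤ R ^ 2 := by nlinarith
  have hR3 : 1 ≤ R ^ 2 := by nlinarith
  have h1 : (-8) * R ^ 3 + (-8 * a) * R ^ 2 + (-2 * (a ^ 2 + b)) * R + (c - a * b) ≤ 0 := by
    have e1 : -8 * a * R ^ 2 ≤ 8 * (|a| * R ^ 2) := by nlinarith [neg_abs_le a, sq_nonneg R]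
    have e2 : (-2 * (a ^ 2 + b)) * R ≤ 2 * ((a ^ 2 + |b|) * R ^ 2) := by
      have := mul_nonneg (add_nonneg ha2 hb0) (by linarith : 0 ≤ R ^ 2 - R)
      nlinarith [neg_abs_le b]
    have e3 : c - a * b ≤ (c - a * b) * R ^ 2 := by
      nlinarith [mul_nonneg hd0 (by linarith : 0 ≤ R ^ 2 - 1)]
    have e4 : R ^ 3 = R ^ 2 + |a| * R ^ 2 + (a ^ 2 + |b|) * R ^ 2 + (c - a * b) * R ^ 2 := by
      rw [hR]; ring
    have e5 := mul_nonneg (add_nonneg ha2 hb0) (sq_nonneg R)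
    have e6 := mul_nonneg hd0 (sq_nonneg R)
    nlinarith [sq_nonneg R]
  have h0 : 0 ≤ (-8) * (0 : ℝ) ^ 3 + (-8 * a) * 0 ^ 2 + (-2 * (a ^ 2 + b)) * 0 + (c - a * b) := by
    simpa using hc
  obtain ⟨s, hs, hs2⟩ := intermediate_value_Icc' (by linarith : (0 : ℝ) ≤ R)
    (rh3_cont (-8 * a) (-2 * (a ^ 2 + b)) (c - a * b) (-8)).continuousOn ⟨h1, h0⟩
  have hs3 : -8 * s ^ 3 + (-8 * a) * s ^ 2 + (-2 * (a ^ 2 + b)) * s + (c - a * b) = 0 := hs2
  rcases le_or_gt 0 (3 * s ^ 2 + 2 * a * s + b) with hW | hW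
  · have hw : Real.sqrt (3 * s ^ 2 + 2 * a * s + b) ^ 2 = 3 * s ^ 2 + 2 * a * s + b :=
      Real.sq_sqrt hW
    set w := Real.sqrt (3 * s ^ 2 + 2 * a * s + b)
    have h2 := H ((s : ℂ) + w * I) (by
      rw [rh3_reim]
      have e1 : s ^ 3 - 3 * s * w ^ 2 + a * (s ^ 2 - w ^ 2) + b * s + c = 0 := by
        rw [hw]; linarith
      have e2 : w * (3 * s ^ 2 - w ^ 2 + 2 * a * s + b) = 0 := by rw [hw]; ring
      rw [e1, e2]; simp)
    simp at h2
    linarith [hs.1]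
  · have hr : Real.sqrt (-(3 * s ^ 2 + 2 * a * s + b)) ^ 2 = -(3 * s ^ 2 + 2 * a * s + b) :=
      Real.sq_sqrt (by linarith)
    have hr0 := Real.sqrt_nonneg (-(3 * s ^ 2 + 2 * a * s + b))
    set r := Real.sqrt (-(3 * s ^ 2 + 2 * a * s + b))
    refine rh3_real a b c (s + r) H (by linarith [hs.1]) ?_
    have e : (s + r) ^ 3 + a * (s + r) ^ 2 + b * (s + r) + c =
        (s ^ 3 + 3 * s * r ^ 2 + a * s ^ 2 + a * r ^ 2 + b * s + c) +
        r * (3 * s ^ 2 + r ^ 2 + 2 * a * s + b) := by ring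
    rw [e, hr]
    linarith

theorem rh3_main (a b c : ℝ) : (∀ z : ℂ, z ^ 3 + a * z ^ 2 + b * z + c = 0 → z.re < 0) ↔
    (0 < a ∧ 0 < c ∧ c < a * b) := by
  constructor
  · intro H
    have hc := rh3_nec_c a b c H
    have hab := rh3_nec_ab a b c H
    refine ⟨?_, hc, hab⟩
    by_contra ha
    push Not at ha
    have h0 : 0 ≤ 1 * (0 : ℝ) ^ 3 + a * 0 ^ 2 + b * 0 + c := by simpa using hc.le
    have h1 : 1 * (-a) ^ 3 + a * (-a) ^ 2 + b * (-a) + c ≤ 0 := by nlinarith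
    obtain ⟨x, hx, hx2⟩ := intermediate_value_Icc' (by linarith : (0 : ℝ) ≤ -a)
      (rh3_cont a b c 1).continuousOn ⟨h1, h0⟩
    exact rh3_real a b c x H hx.1 (by simpa using hx2)
  · rintro ⟨ha, hc, hab⟩ z hz
    exact rh3_suff a b c ha hc hab z hz

theorem tRH3 : S_RH3 := fun a b c => rh3_main a b c

end Pool.Agent.NPC.SOF
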