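import Pool.Agent.H625R2.SOF.Defs

/-! Triangularisation of complex matrices. -/

set_option autoImplicit false

namespace Pool.Agent.NPC.SOF

/-- block diagonal matrix with blocks `1` and `A` -/
def tri_bd {n : ℕ} (A : Matrix (Fin n) (Fin n) ℂ) : Matrix (Fin (n + 1)) (Fin (n + 1)) ℂ :=
  fun i j => Fin.cases (motive := fun _ => ℂ) (Fin.cases (motive := fun _ => ℂ) 1 (fun _ => 0) j)
    (fun i' => Fin.cases (motive := fun _ => ℂ) 0 (fun j' => A i' j') j) i

theorem tri_bd00 {n : ℕ} (A : Matrix (Fin n) (Fin n) ℂ) : tri_bd A 0 0 = 1 := rfl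
theorem tri_bd0s {n : ℕ} (A : Matrix (Fin n) (Fin n) ℂ) (j : Fin n) : tri_bd A 0 j.succ = 0 := rfl
theorem tri_bds0 {n : ℕ} (A : Matrix (Fin n) (Fin n) ℂ) (i : Fin n) : tri_bd A i.succ 0 = 0 := rfl
theorem tri_bdss {n : ℕ} (A : Matrix (Fin n) (Fin n) ℂ) (i j : Fin n) :
    tri_bd A i.succ j.succ = A i j := rfl

theorem tri_bd_mul {n : ℕ} (A B : Matrix (Fin n) (Fin n) ℂ) :
    tri_bd A * tri_bd B = tri_bd (A * B) := by
  ext i j
  refine Fin.cases ?_ (fun i' => ?_) i <;> refine Fin.cases ?_ (fun j' => ?_) j <;>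
    simp [Matrix.mul_apply, Fin.sum_univ_succ, tri_bd00, tri_bd0s, tri_bds0, tri_bdss]

theorem tri_bd_one {n : ℕ} : tri_bd (1 : Matrix (Fin n) (Fin n) ℂ) = 1 := by
  ext i j
  refine Fin.cases ?_ (fun i' => ?_) i <;> refine Fin.cases ?_ (fun j' => ?_) j
  · simp [tri_bd00]
  · rw [tri_bd0s, Matrix.one_apply_ne (Fin.succ_ne_zero j').symm]
  · rw [tri_bds0, Matrix.one_apply_ne (Fin.succ_ne_zero i')]
  · rw [tri_bdss]; simp [Matrix.one_apply]

theorem tri_main : ∀ (n : ℕ) (M : Matrix (Fin n) (Fin n) ℂ),
    ∃ U V T : Matrix (Fin n) (Fin n) ℂ, U * V = 1 ∧ M * U = U * T ∧ ∀ i j, j < i → T i j = 0 := by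
  intro n
  induction n with
  | zero => intro M; exact ⟨1, 1, M, by simp, by simp, fun i => i.elim0⟩
  | succ n ih =>
    intro M
    obtain ⟨z, hz⟩ := Module.End.exists_eigenvalue (Matrix.toLin' M)
    obtain ⟨x, hx⟩ := hz.exists_hasEigenvector
    have hMx : M.mulVec x = z • x := by simpa using hx.apply_eq_smul
    have hx0 : x ≠ 0 := hx.2
    obtain ⟨i0, hi0⟩ : ∃ i, x i ≠ 0 := by
      by_contra h; push Not at h; exact hx0 (funext h)
    let σ : Equiv.Perm (Fin (n + 1)) := Equiv.swap 0 i0
    have hσ0 : σ 0 = i0 := Equiv.swap_apply_left 0 i0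
    let P : Matrix (Fin (n + 1)) (Fin (n + 1)) ℂ := fun i j => if j = 0 then x i else
      if i = σ j then 1 else 0
    have hPinj : Function.Injective P.mulVec := by
      intro v w hvw
      have h1 : P.mulVec (v - w) = 0 := by rw [Matrix.mulVec_sub, hvw, sub_self]
      have h2 : ∀ i, x i * (v - w) 0 + (if i = i0 then 0 else (v - w) (σ.symm i)) = 0 := by
        intro i
        have h3 := congrFun h1 i
        simp only [Matrix.mulVec, dotProduct, Pi.zero_apply] at h3
        refine Eq.trans ?_ h3
        rw [Fin.sum_univ_succ]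
        congr 1
        have h4 : ∀ j : Fin n, P i j.succ * (v - w) j.succ =
            if i = σ j.succ then (v - w) j.succ else 0 := by
          intro j
          simp only [P, Fin.succ_ne_zero, if_false]
          split_ifs <;> simp
        simp only [h4]
        by_cases hi : i = i0
        · subst hi
          rw [if_pos rfl]
          symm
          apply Finset.sum_eq_zero
          intro j _
          rw [if_neg]
          intro h5
          rw [← hσ0] at h5
          exact Fin.succ_ne_zero j (σ.injective h5).symm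
        · rw [if_neg hi]
          have h6 : σ.symm i ≠ 0 := by
            intro h7; apply hi; rw [← hσ0, ← h7, Equiv.apply_symm_apply]
          obtain ⟨j0, hj0⟩ := Fin.exists_succ_eq.2 h6
          rw [Finset.sum_eq_single j0]
          · rw [hj0, Equiv.apply_symm_apply, if_pos rfl]
          · intro j _ hj
            rw [if_neg]
            intro h8
            apply hj
            rw [h8, Equiv.symm_apply_apply] at hj0
            exact (Fin.succ_injective _ hj0).symm
          · intro h; exact absurd (Finset.mem_univ _) h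
      have h9 : (v - w) 0 = 0 := by
        have := h2 i0
        rw [if_pos rfl, add_zero] at this
        exact (mul_eq_zero.1 this).resolve_left hi0
      have h10 : v - w = 0 := by
        funext j
        by_cases hj : j = 0
        · rw [hj]; exact h9
        · have h11 : σ j ≠ i0 := by
            intro h; rw [← hσ0] at h; exact hj (σ.injective h)
          have := h2 (σ j)
          rw [h9, mul_zero, zero_add, if_neg h11, Equiv.symm_apply_apply] at this
          exact this
      exact sub_eq_zero.1 h10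
    have hPu : IsUnit P := Matrix.mulVec_injective_iff_isUnit.1 hPinj
    have hPdet : IsUnit P.det := (Matrix.isUnit_iff_isUnit_det P).1 hPu
    have hPP : P * P⁻¹ = 1 := Matrix.mul_nonsing_inv P hPdet
    have hPP' : P⁻¹ * P = 1 := Matrix.nonsing_inv_mul P hPdet
    let M' := P⁻¹ * M * P
    have hcol : ∀ i, (P⁻¹ * M * P) i 0 = z * (1 : Matrix (Fin (n + 1)) (Fin (n + 1)) ℂ) i 0 := by
      intro i
      have h1 : ∀ A : Matrix (Fin (n + 1)) (Fin (n + 1)) ℂ, ∀ i, (A * P) i 0 = A.mulVec x i := by
        intro A i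
        simp [Matrix.mul_apply, Matrix.mulVec, dotProduct, P]
      rw [h1, ← Matrix.mulVec_mulVec, hMx, Matrix.mulVec_smul, Pi.smul_apply, smul_eq_mul, ← h1, hPP']
    obtain ⟨U', V', T', hUV, hNU, hT'⟩ := ih (M'.submatrix Fin.succ Fin.succ)
    have hVU : V' * U' = 1 := mul_eq_one_comm.1 hUV
    refine ⟨P * tri_bd U', tri_bd V' * P⁻¹, tri_bd V' * M' * tri_bd U', ?_, ?_, ?_⟩
    · calc P * tri_bd U' * (tri_bd V' * P⁻¹) = P * (tri_bd U' * tri_bd V') * P⁻¹ := by
            simp only [Matrix.mul_assoc]
        _ = 1 := by rw [tri_bd_mul, hUV, tri_bd_one, Matrix.mul_one, hPP]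
    · calc M * (P * tri_bd U') = (P * P⁻¹) * M * (P * tri_bd U') := by
            rw [hPP, Matrix.one_mul]
        _ = P * (P⁻¹ * M * P) * tri_bd U' := by simp only [Matrix.mul_assoc]
        _ = P * ((tri_bd U' * tri_bd V') * (P⁻¹ * M * P)) * tri_bd U' := by
            rw [tri_bd_mul, hUV, tri_bd_one, Matrix.one_mul]
        _ = P * tri_bd U' * (tri_bd V' * M' * tri_bd U') := by
            simp only [M', Matrix.mul_assoc]
    · intro i j
      refine Fin.cases ?_ (fun i' => ?_) i
      · intro h; exact absurd h (by simp)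
      · refine Fin.cases ?_ (fun j' => ?_) j
        · intro _
          have hc : ∀ k : Fin n, M' k.succ 0 = 0 := by
            intro k
            show (P⁻¹ * M * P) k.succ 0 = 0
            rw [hcol, Matrix.one_apply_ne (Fin.succ_ne_zero k), mul_zero]
          simp [Matrix.mul_apply, Fin.sum_univ_succ, tri_bd00, tri_bds0, tri_bdss, hc]
        · intro h
          have h1 : (tri_bd V' * M' * tri_bd U') i'.succ j'.succ =
              (V' * M'.submatrix Fin.succ Fin.succ * U') i' j' := by
            simp [Matrix.mul_apply, Fin.sum_univ_succ, tri_bd0s, tri_bds0, tri_bdss]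
          rw [h1]
          have h2 : (V' * M'.submatrix Fin.succ Fin.succ * U') = T' := by
            rw [Matrix.mul_assoc, hNU, ← Matrix.mul_assoc, hVU, Matrix.one_mul]
          rw [h2]
          exact hT' _ _ (Fin.succ_lt_succ_iff.1 h)

theorem tTRI : S_TRI := tri_main

end Pool.Agent.NPC.SOF
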