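
import Pool.Agent.H625R2.SOF.Defs

set_option autoImplicit false

namespace Pool.Agent.NPC.SOF

open Pool.Agent.NPC Pool.Agent.NPC.ER Pool.Agent.NPC.ER.Tens Pool.Agent.NPC.H670R2

/-- well-formed plant with one input, `p` outputs and at most three states -/
def wfGood (p : ℕ) (P : LM × LM × LM) : Prop :=
  (IsMat P.1.length P.1.length P.1 ∧ IsMat P.1.length 1 P.2.1 ∧ IsMat p P.1.length P.2.2) ∧
    P.1.length ≤ 3

theorem wf_plant1 (p : ℕ) (f : AF) : wfGood p (plant1 p f) := by
  refine ⟨⟨⟨rfl, ?_⟩, ⟨rfl, ?_⟩, ⟨?_, ?_⟩⟩, ?_⟩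
  · intro row hrow
    simp only [plant1, List.mem_singleton] at hrow
    subst hrow
    rfl
  · intro row hrow
    simp only [plant1, List.mem_singleton] at hrow
    subst hrow
    rfl
  · simp only [plant1, List.length_map, List.length_range]
  · intro row hrow
    simp only [plant1, List.mem_map] at hrow
    obtain ⟨t, _, rfl⟩ := hrow
    rfl
  · simp only [plant1, List.length_cons, List.length_nil]
    omega

theorem wf_plant3 (p : ℕ) (a b c : AF) : wfGood p (plant3 p a b c) := by
  refine ⟨⟨⟨rfl, ?_⟩, ⟨rfl, ?_⟩, ⟨?_, ?_⟩⟩, ?_⟩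
  · intro row hrow
    simp only [plant3, List.mem_cons, List.not_mem_nil, or_false] at hrow
    rcases hrow with rfl | rfl | rfl <;> rfl
  · intro row hrow
    simp only [plant3, List.mem_cons, List.not_mem_nil, or_false] at hrow
    rcases hrow with rfl | rfl | rfl <;> rfl
  · simp only [plant3, List.length_map, List.length_range]
  · intro row hrow
    simp only [plant3, List.mem_map] at hrow
    obtain ⟨t, _, rfl⟩ := hrow
    rfl
  · simp only [plant3, List.length_cons, List.length_nil]
    omega

theorem wf_conP (p e : ℕ) (c : Con) : ∀ P ∈ conP p e c, wfGood p P := by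
  intro P hP
  cases c with
  | one i =>
    simp only [conP, List.mem_cons, List.not_mem_nil, or_false] at hP
    rcases hP with rfl | rfl <;> exact wf_plant1 _ _
  | add i j k =>
    simp only [conP, List.mem_cons, List.not_mem_nil, or_false] at hP
    rcases hP with rfl | rfl <;> exact wf_plant1 _ _
  | mul i j k =>
    simp only [conP, List.mem_cons, List.not_mem_nil, or_false] at hP
    rcases hP with rfl | rfl <;> exact wf_plant3 _ _ _ _

theorem wf_sysP (N : ℕ) (T : List Con) : ∀ P ∈ sysP N T, wfGood (N + sq T + 1) P := by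
  intro P hP
  simp only [sysP, List.mem_append, List.mem_cons, List.mem_flatMap, List.mem_map,
    List.mem_range, List.not_mem_nil, or_false] at hP
  rcases hP with (⟨i, _, rfl | rfl⟩ | (rfl | ⟨j, _, rfl⟩)) | ⟨c, _, hc⟩
  · exact wf_plant1 _ _
  · exact wf_plant1 _ _
  · exact wf_plant1 _ _
  · exact wf_plant3 _ _ _ _
  · exact wf_conP _ _ _ _ hc

theorem tWF : S_WF := by
  intro N T
  exact ⟨fun P hP => (wf_sysP N T P hP).1, fun P hP => (wf_sysP N T P hP).2⟩

end Pool.Agent.NPC.SOF
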