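import Pool.Agent.H625R2.SOF.Defs

/-!
# The well-formedness test
-/

namespace Pool.Agent.NPC.SOF

open Pool.Agent.NPC Pool.Agent.NPC.ER Pool.Agent.NPC.ER.Tens Pool.Agent.NPC.H670R2

theorem wfb_isMatB (r c : ℕ) (M : LM) : isMatB r c M = true ↔ IsMat r c M := by
  unfold isMatB IsMat
  rw [Bool.and_eq_true, List.all_eq_true, decide_eq_true_eq]
  simp only [decide_eq_true_eq]

theorem wfb_iff (I : Inst) : wfB I = true ↔ WF I := by
  unfold wfB WF
  rw [List.all_eq_true]
  refine forall_congr' fun P => imp_congr_right fun _ => ?_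
  rw [Bool.and_eq_true, Bool.and_eq_true, wfb_isMatB, wfb_isMatB, wfb_isMatB]

theorem wfb_poly_isMatB : Poly fun x : (ℕ × ℕ) × LM => isMatB x.1.1 x.1.2 x.2 := by
  unfold isMatB
  refine Poly.and (Poly.decide_eq (Poly.length (Poly.snd Poly.id))
    (Poly.fst (Poly.fst Poly.id))) ?_
  refine Poly.all (p := fun (x : (ℕ × ℕ) × LM) (row : List ℤ) =>
    decide (row.length = x.1.2)) (Poly.snd Poly.id) ?_
  exact Poly.decide_eq (Poly.length (Poly.snd Poly.id)) (Poly.snd (Poly.fst (Poly.fst Poly.id)))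

theorem wfb_poly : Poly wfB := by
  unfold wfB
  refine Poly.all (p := fun (I : Inst) (P : LM × LM × LM) =>
    isMatB P.1.length P.1.length P.1 &&
      (isMatB P.1.length I.1.1 P.2.1 && isMatB I.1.2 P.1.length P.2.2)) (Poly.snd Poly.id) ?_
  have hA : Poly (fun x : Inst × (LM × LM × LM) => x.2.1) := Poly.fst (Poly.snd Poly.id)
  have hB : Poly (fun x : Inst × (LM × LM × LM) => x.2.2.1) :=
    Poly.fst (Poly.snd (Poly.snd Poly.id))
  have hC : Poly (fun x : Inst × (LM × LM × LM) => x.2.2.2) :=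
    Poly.snd (Poly.snd (Poly.snd Poly.id))
  have hn : Poly (fun x : Inst × (LM × LM × LM) => x.2.1.length) := Poly.length hA
  have hm : Poly (fun x : Inst × (LM × LM × LM) => x.1.1.1) := Poly.fst (Poly.fst (Poly.fst Poly.id))
  have hp : Poly (fun x : Inst × (LM × LM × LM) => x.1.1.2) := Poly.snd (Poly.fst (Poly.fst Poly.id))
  have h1 := wfb_poly_isMatB.comp (Poly.pair (Poly.pair hn hn) hA)
  have h2 := wfb_poly_isMatB.comp (Poly.pair (Poly.pair hn hm) hB)
  have h3 := wfb_poly_isMatB.comp (Poly.pair (Poly.pair hp hn) hC)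
  exact Poly.and h1 (Poly.and h2 h3)

theorem tWFB : S_WFB := ⟨wfb_iff, wfb_poly⟩

end Pool.Agent.NPC.SOF
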