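import Pool.Agent.H625R2.SOF.Fin0
import Pool.Agent.H625R2.SOF.TRH3
import Pool.Agent.H625R2.SOF.TCL1
import Pool.Agent.H625R2.SOF.TCL3
import Pool.Agent.H625R2.SOF.TWF
import Pool.Agent.H625R2.SOF.TCOR1
import Pool.Agent.H625R2.SOF.TCOR2
import Pool.Agent.H625R2.SOF.TRED
import Pool.Agent.H625R2.SOF.TTRI
import Pool.Agent.H625R2.SOF.TCER
import Pool.Agent.H625R2.SOF.TWFB
import Pool.Agent.H625R2.SOF.TCLO
import Pool.Agent.H625R2.SOF.TENT
import Pool.Agent.H625R2.SOF.TMEM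
import Pool.Agent.H625R2.SOF.TPOL

/-!
# Simultaneous stabilisation by static output feedback: final theorem
-/

namespace Pool.Agent.NPC.SOF

open Pool.Agent.NPC Pool.Agent.NPC.ER

/-- **Main theorem.** -/
theorem sof_final : ERComplete (lang Stab) ∧ ERComplete (lang Stab3) ∧
    ((∀ L : Set (List Bool), InER L → InNP L) ↔ InNP (lang Stab3)) :=
  sof_assembly (tCOR1 tRH3 tCL1 tCL3 tWF) (tCOR2 tRH3 tCL1 tCL3) tWF tRED tWFB
    (tMEM (tCER tTRI) (tENT tCLO)) tPOL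

end Pool.Agent.NPC.SOF
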