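import Pool.Agent.H625R2.SOF.Defs

namespace Pool.Agent.NPC.SOF

open Pool.Agent.NPC Pool.Agent.NPC.ER Pool.Agent.NPC.ER.Tens Pool.Agent.NPC.H670R2

theorem tRH3 : S_RH3 := by
  sorry

theorem tCL1 : S_CL1 := by
  sorry

theorem tCL3 : S_CL3 := by
  sorry

theorem tWF : S_WF := by
  sorry

theorem tCOR1 (h1 : S_RH3) (h2 : S_CL1) (h3 : S_CL3) (h4 : S_WF) : S_COR1 := by
  sorry

theorem tCOR2 (h1 : S_RH3) (h2 : S_CL1) (h3 : S_CL3) : S_COR2 := by
  sorry

theorem tRED : S_RED := by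
  sorry

theorem tTRI : S_TRI := by
  sorry

theorem tCER (h1 : S_TRI) : S_CER := by
  sorry

theorem tWFB : S_WFB := by
  sorry

theorem tCLO : S_CLO := by
  sorry

theorem tENT (h1 : S_CLO) : S_ENT := by
  sorry

theorem tMEM (h1 : S_CER) (h2 : S_ENT) : S_MEM := by
  sorry

theorem tPOL : S_POL := by
  sorry

end Pool.Agent.NPC.SOF
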