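import Pool.Agent.H625R2.SOF.Defs

namespace Pool.Agent.NPC.SOF

open Pool.Agent.NPC Pool.Agent.NPC.ER Pool.Agent.NPC.ER.Tens Pool.Agent.NPC.H670R2

theorem mem_dec {d kd q i j : ℕ} (hk : kd < 7) (hi : i < d) (hj : j < d) :
    vix d kd q i j % 7 = kd ∧ vix d kd q i j / 7 % d = j ∧ vix d kd q i j / 7 / d % d = i ∧
      vix d kd q i j / 7 / d / d = q := by
  have hd : 0 < d := by omega
  have h7 : vix d kd q i j / 7 = (q * d + i) * d + j := by
    unfold vix
    generalize (q * d + i) * d + j = Y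
    omega
  have h7' : vix d kd q i j % 7 = kd := by
    unfold vix
    generalize (q * d + i) * d + j = Y
    omega
  have hm : ∀ X k : ℕ, k < d → (X * d + k) % d = k := by
    intro X k hk
    rw [Nat.add_comm, Nat.add_mul_mod_self_right, Nat.mod_eq_of_lt hk]
  have hv : ∀ X k : ℕ, k < d → (X * d + k) / d = X := by
    intro X k hk
    rw [Nat.add_comm, Nat.add_mul_div_right _ _ hd, Nat.div_eq_of_lt hk, zero_add]
  refine ⟨h7', ?_, ?_, ?_⟩
  · rw [h7, hm _ _ hj]
  · rw [h7, hv _ _ hj, hm _ _ hi]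
  · rw [h7, hv _ _ hj, hv _ _ hi]

theorem mem_len {α β : Type} (f : α → List β) (l : List α) (a : α) (ha : a ∈ l) :
    (f a).length ≤ (l.flatMap f).length := by
  induction l with
  | nil => exact absurd ha List.not_mem_nil
  | cons b l ih =>
    rw [List.flatMap_cons, List.length_append]
    rcases List.mem_cons.1 ha with rfl | h
    · omega
    · have := ih h
      omega

theorem mem_dim (I : Inst) (P : LM × LM × LM) (hP : P ∈ I.2) :
    P.1.length + P.2.2.length + (P.2.1.getD 0 []).length ≤ dimB I := by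
  have h := mem_len (fun P : LM × LM × LM => P.1.map (fun _ => ()) ++ (P.2.2.map (fun _ => ()) ++
    (P.2.1.getD 0 []).map fun _ => ())) I.2 P hP
  simp only [List.length_append, List.length_map] at h
  unfold dimB
  omega

theorem mem_wf (I : Inst) (hI : WF I) (P : LM × LM × LM) (hP : P ∈ I.2) (hn : 0 < P.1.length) :
    (P.2.1.getD 0 []).length = I.1.1 ∧ P.2.2.length = I.1.2 := by
  obtain ⟨-, ⟨h1, h2⟩, h3, -⟩ := hI P hP
  refine ⟨?_, h3⟩
  have h4 : 0 < P.2.1.length := by rw [h1]; exact hn
  apply h2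
  rw [List.getD_eq_getElem _ _ h4]
  exact List.getElem_mem h4

theorem tMEM (h1 : S_CER) (h2 : S_ENT) : S_MEM := by
  classical
  intro I hI
  constructor
  · rintro ⟨K, hK⟩
    have hch : ∀ P : LM × LM × LM, ∃ U V T : Matrix (Fin P.1.length) (Fin P.1.length) ℂ,
        P ∈ I.2 → (U * V = 1 ∧ (closed I.1.1 I.1.2 P K).map Complex.ofReal * U = U * T ∧
          (∀ i j, j < i → T i j = 0) ∧ ∀ i, (T i i).re < 0) := by
      intro P
      by_cases hP : P ∈ I.2
      · obtain ⟨U, V, T, h⟩ := (h1 _ _).1 (hK P hP)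
        exact ⟨U, V, T, fun _ => h⟩
      · exact ⟨0, 0, 0, fun h => absurd h hP⟩
    choose U V T hUVT using hch
    let ext : (P : LM × LM × LM) → Matrix (Fin P.1.length) (Fin P.1.length) ℂ → ℕ → ℕ → ℂ :=
      fun P M i j => if h : i < P.1.length ∧ j < P.1.length then M ⟨i, h.1⟩ ⟨j, h.2⟩ else 0
    let d := dimB I
    let v : ℕ → ℝ := fun x =>
      let j := x / 7 % d
      let i := x / 7 / d % d
      let P := I.2.getD (x / 7 / d / d) default
      if x % 7 = 0 then (if h : i < I.1.1 ∧ j < I.1.2 then K ⟨i, h.1⟩ ⟨j, h.2⟩ else 0)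
      else if x % 7 = 1 then (ext P (U P) i j).re
      else if x % 7 = 2 then (ext P (U P) i j).im
      else if x % 7 = 3 then (ext P (V P) i j).re
      else if x % 7 = 4 then (ext P (V P) i j).im
      else if x % 7 = 5 then (ext P (T P) i j).re
      else (ext P (T P) i j).im
    have hv : ∀ (kd q i j : ℕ), kd < 7 → i < d → j < d → v (vix d kd q i j) =
        if kd = 0 then (if h : i < I.1.1 ∧ j < I.1.2 then K ⟨i, h.1⟩ ⟨j, h.2⟩ else 0)
        else if kd = 1 then (ext (I.2.getD q default) (U (I.2.getD q default)) i j).re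
        else if kd = 2 then (ext (I.2.getD q default) (U (I.2.getD q default)) i j).im
        else if kd = 3 then (ext (I.2.getD q default) (V (I.2.getD q default)) i j).re
        else if kd = 4 then (ext (I.2.getD q default) (V (I.2.getD q default)) i j).im
        else if kd = 5 then (ext (I.2.getD q default) (T (I.2.getD q default)) i j).re
        else (ext (I.2.getD q default) (T (I.2.getD q default)) i j).im := by
      intro kd q i j hk hi hj
      obtain ⟨e1, e2, e3, e4⟩ := mem_dec (q := q) hk hi hj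
      simp only [v, e1, e2, e3]
      rw [e4]
    refine ⟨v, ?_⟩
    unfold plantsFm
    rw [holds_conj]
    intro φ hφ
    rw [List.mem_flatMap] at hφ
    obtain ⟨⟨P, q⟩, hPq, hφ⟩ := hφ
    rw [List.mem_flatMap] at hφ
    obtain ⟨i, hi, hφ⟩ := hφ
    rw [List.mem_flatMap] at hφ
    obtain ⟨j, hj, hφ⟩ := hφ
    rw [List.mem_range] at hi hj
    have hq : I.2[q]? = some P := List.mk_mem_zipIdx_iff_getElem?.1 hPq
    have hP : P ∈ I.2 := List.mem_of_getElem? hq
    have hgd : I.2.getD q default = P := by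
      rw [List.getD_eq_getElem?_getD, hq]; rfl
    have hi' : i < P.1.length := hi
    have hj' : j < P.1.length := hj
    have hn : 0 < P.1.length := by omega
    obtain ⟨hm, hp⟩ := mem_wf I hI P hP hn
    have hdim := mem_dim I P hP
    rw [hm, hp] at hdim
    have hφ' : φ ∈ entFm (dimB I) I.1.1 I.1.2 q P i j := by
      have := hφ
      simp only at this
      rw [hm, hp] at this
      exact this
    have hd0 : P.1.length ≤ d := by show P.1.length ≤ dimB I; omega
    have hd1 : I.1.1 ≤ d := by show I.1.1 ≤ dimB I; omega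
    have hd2 : I.1.2 ≤ d := by show I.1.2 ≤ dimB I; omega
    have hext : ∀ (M : Matrix (Fin P.1.length) (Fin P.1.length) ℂ) (i j : Fin P.1.length),
        ext P M i j = M i j := by
      intro M i j
      simp only [ext]
      rw [dif_pos ⟨i.2, j.2⟩]
    have hval : ∀ kd, kd < 7 → ∀ i j : Fin P.1.length, v (vix d kd q i j) =
        if kd = 0 then (if h : (i : ℕ) < I.1.1 ∧ (j : ℕ) < I.1.2 then K ⟨i, h.1⟩ ⟨j, h.2⟩ else 0)
        else if kd = 1 then (U P i j).re
        else if kd = 2 then (U P i j).im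
        else if kd = 3 then (V P i j).re
        else if kd = 4 then (V P i j).im
        else if kd = 5 then (T P i j).re
        else (T P i j).im := by
      intro kd hk i j
      rw [hv kd q i j hk (i.2.trans_le hd0) (j.2.trans_le hd0), hgd, hext, hext, hext]
    refine ((h2 d I.1.1 I.1.2 q P K v ?_ (U P) (V P) (T P) ?_ ?_ ?_ ?_ ?_ ?_).2
      (hUVT P hP)) ⟨i, hi'⟩ ⟨j, hj'⟩ φ hφ'
    · intro s t
      rw [hv 0 0 s t (by norm_num) (s.2.trans_le hd1) (t.2.trans_le hd2), if_pos rfl,
        dif_pos ⟨s.2, t.2⟩]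
    · intro i j; rw [hval 1 (by norm_num)]; simp
    · intro i j; rw [hval 2 (by norm_num)]; simp
    · intro i j; rw [hval 3 (by norm_num)]; simp
    · intro i j; rw [hval 4 (by norm_num)]; simp
    · intro i j; rw [hval 5 (by norm_num)]; simp
    · intro i j; rw [hval 6 (by norm_num)]; simp
  · rintro ⟨v, hv⟩
    unfold plantsFm at hv
    rw [holds_conj] at hv
    refine ⟨fun s t => v (vix (dimB I) 0 0 s t), fun P hP => ?_⟩
    by_cases hn : 0 < P.1.length
    · obtain ⟨hm, hp⟩ := mem_wf I hI P hP hn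
      obtain ⟨q, hq⟩ := List.mem_iff_getElem?.1 hP
      have hPq : (P, q) ∈ I.2.zipIdx := List.mk_mem_zipIdx_iff_getElem?.2 hq
      rw [h1]
      refine ⟨fun i j => ⟨v (vix (dimB I) 1 q i j), v (vix (dimB I) 2 q i j)⟩,
        fun i j => ⟨v (vix (dimB I) 3 q i j), v (vix (dimB I) 4 q i j)⟩,
        fun i j => ⟨v (vix (dimB I) 5 q i j), v (vix (dimB I) 6 q i j)⟩, ?_⟩
      refine (h2 (dimB I) I.1.1 I.1.2 q P _ v (fun s t => rfl) _ _ _ (fun i j => rfl)
        (fun i j => rfl) (fun i j => rfl) (fun i j => rfl) (fun i j => rfl) (fun i j => rfl)).1 ?_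
      intro i j φ hφ
      apply hv
      rw [List.mem_flatMap]
      refine ⟨(P, q), hPq, ?_⟩
      rw [List.mem_flatMap]
      refine ⟨i, List.mem_range.2 i.2, ?_⟩
      rw [List.mem_flatMap]
      refine ⟨j, List.mem_range.2 j.2, ?_⟩
      simp only
      rw [hm, hp]
      exact hφ
    · intro z x hx _
      exfalso
      apply hx
      funext i
      exact absurd i.2 (by omega)

end Pool.Agent.NPC.SOF
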